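import Pool.Agent.H9.SD.Defs
import Pool.Agent.H9.SD.Stm2

/-!
Module Dfs.  Colourings of the pairs of vertices with `q` colours; the pairs of colour `0` form the random graph `G(N, 1/q)`.
-/

set_option autoImplicit false
set_option linter.unusedSectionVars false

open Finset

namespace Pool.Agent.H9.SE

open Pool.Agent.H9.SD

/-- the graph of the pairs of colour `0` -/
def colourGraph {N q : ℕ} (ψ : Sym2 (Fin N) → Fin q) : SimpleGraph (Fin N) where
  Adj u v := u ≠ v ∧ (ψ s(u, v) : ℕ) = 0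
  symm := ⟨fun u v h => ⟨h.1.symm, by rw [Sym2.eq_swap]; exact h.2⟩⟩
  loopless := ⟨fun _ h => h.1 rfl⟩

/-- the vertices of the pairs in `B` -/
def vs {N : ℕ} (B : Finset (Sym2 (Fin N))) : Finset (Fin N) := B.biUnion Sym2.toFinset

/-- the pairs (without loops) inside `U` -/
def ed {N : ℕ} (U : Finset (Fin N)) : Finset (Sym2 (Fin N)) := univ.filter (fun e => ¬ e.IsDiag ∧ e.toFinset ⊆ U)

/-- a function of a colour with mean zero -/
noncomputable def phi (q : ℕ) (a : Fin q) : ℝ := if (a : ℕ) = 0 then (q : ℝ) - 1 else -1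

/-- the low-degree part of the density of a clique on `U` -/
noncomputable def Dn {N q : ℕ} (m : ℕ) (U : Finset (Fin N)) (ψ : Sym2 (Fin N) → Fin q) : ℝ :=
  ∑ T ∈ (ed U).powerset.filter (fun T => (vs T).card ≤ m), ∏ e ∈ T, phi q (ψ e)

/-- the density of a clique on `U` -/
noncomputable def Dl {N q : ℕ} (U : Finset (Fin N)) (ψ : Sym2 (Fin N) → Fin q) : ℝ := ∏ e ∈ ed U, (1 + phi q (ψ e))

/-- `h` is a sum of functions each of which depends on the pairs inside a set of at most `m` vertices -/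
def LocV {N : ℕ} {A : Type} (m : ℕ) (h : (Sym2 (Fin N) → A) → ℝ) : Prop :=
  ∃ g : Finset (Fin N) → (Sym2 (Fin N) → A) → ℝ, (∀ C, Dep (ed C) (g C)) ∧
    (∀ C, m < C.card → ∀ ψ, g C ψ = 0) ∧ ∀ ψ, h ψ = ∑ C, g C ψ

end Pool.Agent.H9.SE
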