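import Pool.Agent.H9.SE.Vsa
import Pool.Agent.H9.SD.Efb

/-!
Module Dna.  The pseudo-density `Dn` agrees with the density `Dl` of a clique on functions of few vertices.   Use only the STATEMENTS of Vsa, Efb.
`Dna_mean`: `∑ a, phi q a = 0` (`1 ≤ q`: one colour gives `q - 1`, the others `-1`).
`Dna_zero`: choose `e ∈ T`, `e ∉ C`; with `Efb_upd` (`card A * ∑ ψ, G ψ = ∑ ψ, ∑ a, G (update ψ e a)`) and `Finset.mul_prod_erase` the inner sum is `(∑ a, phi q a) * (product over T.erase e) * g ψ = 0` (`g` and the rest do not depend on `ψ e`).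
`Dna_expand`: `Dl U ψ = ∑ T ∈ (ed U).powerset, ∏ e ∈ T, phi q (ψ e)` (`Finset.prod_one_add`).
`Dna_main`: expand both sides; the terms with `T ⊄ C` vanish (`Dna_zero`); if `T ⊆ C` and `T ⊆ ed U` then `vs T ⊆ vs C ∩ U`, so `(vs T).card ≤ m` and the term occurs on both sides.
`Dna_sum`: only `T = ∅` survives (`Dna_zero` with `g = 1`, `C = ∅`).  `Dna_supp`: a factor `1 + phi q (ψ e)` is `0` unless the colour is `0`.
`Dna_depn`, `Dna_depl`: clear (`T ⊆ ed U`).
-/

set_option autoImplicit false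
set_option linter.unusedSectionVars false

open Finset

namespace Pool.Agent.H9.SE

open Pool.Agent.H9.SD

variable {N q : ℕ}

theorem Dna_mean (hq : 1 ≤ q) : ∑ a : Fin q, phi q a = 0 := by
  obtain ⟨n, rfl⟩ : ∃ n, q = n + 1 := ⟨q - 1, by omega⟩
  rw [Fin.sum_univ_succ]
  simp [phi]

theorem Dna_zero (hq : 1 ≤ q) (T C : Finset (Sym2 (Fin N))) (hTC : ¬ T ⊆ C) (g : (Sym2 (Fin N) → Fin q) → ℝ)
    (hg : Dep C g) : ∑ ψ, (∏ e ∈ T, phi q (ψ e)) * g ψ = 0 := by
  obtain ⟨e, heT, heC⟩ := Finset.not_subset.1 hTC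
  have : Nonempty (Fin q) := ⟨⟨0, hq⟩⟩
  have h1 := Efb_upd (fun ψ : Sym2 (Fin N) → Fin q => (∏ e ∈ T, phi q (ψ e)) * g ψ) e
  have h2 : ∑ ψ : Sym2 (Fin N) → Fin q, ∑ a : Fin q,
      (fun ψ : Sym2 (Fin N) → Fin q => (∏ e ∈ T, phi q (ψ e)) * g ψ) (Function.update ψ e a) = 0 := by
    refine Finset.sum_eq_zero fun ψ _ => ?_
    have h3 : ∀ a : Fin q, (fun ψ : Sym2 (Fin N) → Fin q => (∏ e ∈ T, phi q (ψ e)) * g ψ) (Function.update ψ e a)
        = phi q a * ((∏ e' ∈ T.erase e, phi q (ψ e')) * g ψ) := by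
      intro a
      have h4 : g (Function.update ψ e a) = g ψ := by
        refine hg _ _ fun w hw => ?_
        have hwe : w ≠ e := fun h => heC (h ▸ hw)
        exact Function.update_of_ne hwe a ψ
      have h5 : ∏ e' ∈ T.erase e, phi q (Function.update ψ e a e') = ∏ e' ∈ T.erase e, phi q (ψ e') := by
        refine Finset.prod_congr rfl fun w hw => ?_
        rw [Function.update_of_ne (Finset.ne_of_mem_erase hw)]
      simp only
      rw [h4, ← Finset.mul_prod_erase T (fun e' => phi q (Function.update ψ e a e')) heT, h5,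
        Function.update_self, mul_assoc]
    simp only [h3]
    rw [← Finset.sum_mul, Dna_mean hq, zero_mul]
  rw [h2] at h1
  have h4 : (Fintype.card (Fin q) : ℝ) ≠ 0 := by
    exact_mod_cast Fintype.card_ne_zero
  rcases mul_eq_zero.1 h1.symm with h5 | h5
  · exact absurd h5 h4
  · exact h5

theorem Dna_expand (U : Finset (Fin N)) (ψ : Sym2 (Fin N) → Fin q) :
    Dl U ψ = ∑ T ∈ (ed U).powerset, ∏ e ∈ T, phi q (ψ e) := by
  unfold Dl
  exact Finset.prod_one_add _

theorem Dna_main (hq : 1 ≤ q) (m : ℕ) (U : Finset (Fin N)) (C : Finset (Sym2 (Fin N)))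
    (hC : (vs C ∩ U).card ≤ m) (g : (Sym2 (Fin N) → Fin q) → ℝ) (hg : Dep C g) :
    ∑ ψ, Dn m U ψ * g ψ = ∑ ψ, Dl U ψ * g ψ := by
  simp only [Dna_expand]
  unfold Dn
  simp only [Finset.sum_mul]
  rw [Finset.sum_comm, Finset.sum_comm (t := (ed U).powerset)]
  refine Finset.sum_filter_of_ne fun T hT hne => ?_
  by_contra hlt
  refine hne (Dna_zero hq T C (fun hTC => hlt ?_) g hg)
  refine le_trans (Finset.card_le_card ?_) hC
  exact Finset.subset_inter (Vsa_vs_mono hTC) (Vsa_vs_ed (Finset.mem_powerset.1 hT))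

theorem Dna_fac (a : Fin q) : 1 + phi q a = if (a : ℕ) = 0 then (q : ℝ) else 0 := by
  unfold phi
  split_ifs <;> ring

theorem Dna_nonneg (U : Finset (Fin N)) (ψ : Sym2 (Fin N) → Fin q) : 0 ≤ Dl U ψ := by
  unfold Dl
  refine Finset.prod_nonneg fun e _ => ?_
  rw [Dna_fac]
  split_ifs
  · exact Nat.cast_nonneg _
  · exact le_refl _

theorem Dna_sum (hq : 1 ≤ q) (U : Finset (Fin N)) :
    ∑ ψ : Sym2 (Fin N) → Fin q, Dl U ψ = (Fintype.card (Sym2 (Fin N) → Fin q) : ℝ) := by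
  simp only [Dna_expand]
  rw [Finset.sum_comm, Finset.sum_eq_single ∅]
  · simp
  · intro T _ hT
    have h1 := Dna_zero (N := N) hq T ∅ (fun h => hT (Finset.subset_empty.1 h)) (fun _ => 1)
      (fun _ _ _ => rfl)
    simpa using h1
  · intro h
    exact absurd (Finset.empty_mem_powerset _) h

theorem Dna_supp (U : Finset (Fin N)) (ψ : Sym2 (Fin N) → Fin q) (h : Dl U ψ ≠ 0) : ∀ e ∈ ed U, (ψ e : ℕ) = 0 := by
  intro e he
  by_contra hne
  refine h ?_
  unfold Dl
  refine Finset.prod_eq_zero he ?_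
  rw [Dna_fac, if_neg hne]

theorem Dna_depn (m : ℕ) (U : Finset (Fin N)) : Dep (ed U) (fun ψ : Sym2 (Fin N) → Fin q => Dn m U ψ) := by
  intro ψ ψ' h
  simp only [Dn]
  refine Finset.sum_congr rfl fun T hT => Finset.prod_congr rfl fun e he => ?_
  rw [h e (Finset.mem_powerset.1 (Finset.mem_filter.1 hT).1 he)]

theorem Dna_depl (U : Finset (Fin N)) : Dep (ed U) (fun ψ : Sym2 (Fin N) → Fin q => Dl U ψ) := by
  intro ψ ψ' h
  simp only [Dl]
  refine Finset.prod_congr rfl fun e he => ?_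
  rw [h e he]

end Pool.Agent.H9.SE
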