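import Pool.Agent.H9.SD.One
import Pool.Agent.H9.SD.Sum

/-!
Module Gen.  The Efron-Stein decomposition split by a predicate; the inequality for one index.
-/

set_option autoImplicit false
set_option linter.unusedSectionVars false

open Finset

namespace Pool.Agent.H9.SE

open Pool.Agent.H9.SD

variable {ι A : Type} [Fintype ι] [DecidableEq ι] [Fintype A] [DecidableEq A] [Nonempty A]

open Classical in
/-- the part with the components `B` that satisfy `p` -/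
noncomputable def lop (p : Finset ι → Prop) (h : (ι → A) → ℝ) (ψ : ι → A) : ℝ :=
  ∑ B ∈ (univ : Finset (Finset ι)).filter (fun B => p B), es B h ψ

open Classical in
/-- the rest -/
noncomputable def hip (p : Finset ι → Prop) (h : (ι → A) → ℝ) (ψ : ι → A) : ℝ :=
  ∑ B ∈ (univ : Finset (Finset ι)).filter (fun B => ¬ p B), es B h ψ

theorem Gen_add (p : Finset ι → Prop) (h : (ι → A) → ℝ) (ψ : ι → A) : lop p h ψ + hip p h ψ = h ψ := by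
  classical
  unfold lop hip
  rw [Finset.sum_filter_add_sum_filter_not, Efa_sum]

theorem Gen_lo (p : Finset ι → Prop) (h : (ι → A) → ℝ) : ∑ ψ, lop p h ψ ^ 2 ≤ ∑ ψ, h ψ ^ 2 := by
  classical
  unfold lop
  rw [Efb_sq, Efb_norm h]
  exact Finset.sum_le_sum_of_subset_of_nonneg (Finset.subset_univ _)
    fun B _ _ => Finset.sum_nonneg fun ψ _ => sq_nonneg _

open Classical in
theorem Gen_hi (p : Finset ι → Prop) (h : (ι → A) → ℝ) :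
    ∑ ψ, hip p h ψ ^ 2 =
      ∑ B ∈ (univ : Finset (Finset ι)).filter (fun B => ¬ p B), ∑ ψ, es B h ψ ^ 2 := by
  unfold hip
  rw [Efb_sq]

open Classical in
/-- `V B` is the class of components that do not vanish for `h`. -/
theorem Gen_hit {Φ : Type} [Fintype Φ] (p : Φ → Finset ι → Prop) (V : Finset ι → Prop) (δ : ℝ) (hδ0 : 0 ≤ δ)
    (h : (ι → A) → ℝ)
    (hδ : ∀ B : Finset ι, V B → ((univ.filter (fun F => ¬ p F B)).card : ℝ) ≤ δ * Fintype.card Φ)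
    (hh : ∀ B, ¬ V B → ∀ ψ, es B h ψ = 0) :
    ∑ F, ∑ ψ, hip (p F) h ψ ^ 2 ≤ δ * Fintype.card Φ * ∑ ψ, h ψ ^ 2 := by
  simp only [Gen_hi]
  rw [Efb_norm h, Finset.mul_sum]
  simp only [Finset.sum_filter]
  rw [Finset.sum_comm]
  refine Finset.sum_le_sum fun B _ => ?_
  have hN : 0 ≤ ∑ ψ, es B h ψ ^ 2 := Finset.sum_nonneg fun ψ _ => sq_nonneg _
  rw [← Finset.sum_filter, Finset.sum_const, nsmul_eq_mul]
  by_cases hB : V B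
  · exact mul_le_mul_of_nonneg_right (hδ B hB) hN
  · have h0 : ∑ ψ, es B h ψ ^ 2 = 0 := by
      refine Finset.sum_eq_zero fun ψ _ => ?_
      rw [hh B hB ψ]
      norm_num
    rw [h0, mul_zero, mul_zero]

theorem Gen_sc (p : Finset ι → Prop) (D : (ι → A) → ℝ) (L : ℝ) (hL0 : 0 ≤ L) (hL : ∀ ψ, |D ψ| ≤ L)
    (hD : ∀ h : (ι → A) → ℝ, 0 ≤ ∑ ψ, D ψ * lop p h ψ ^ 2) (h : (ι → A) → ℝ) (η : ℝ)
    (hη : 0 < η) :
    -(L * (η * ∑ ψ, h ψ ^ 2 + (1 + 1 / η) * ∑ ψ, hip p h ψ ^ 2)) ≤ ∑ ψ : ι → A, D ψ * h ψ ^ 2 := by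
  have h1 : ∑ ψ : ι → A, (D ψ * lop p h ψ ^ 2 -
      L * (η * lop p h ψ ^ 2 + (1 + 1 / η) * hip p h ψ ^ 2)) ≤
      ∑ ψ : ι → A, D ψ * h ψ ^ 2 := by
    apply Finset.sum_le_sum
    intro ψ _
    have h2 := One_pt (D := D ψ) (lo := lop p h ψ) (hi := hip p h ψ) (hL ψ) hη
    rw [Gen_add] at h2
    exact h2
  have h2 : ∑ ψ : ι → A, (D ψ * lop p h ψ ^ 2 -
      L * (η * lop p h ψ ^ 2 + (1 + 1 / η) * hip p h ψ ^ 2)) =
      ∑ ψ : ι → A, D ψ * lop p h ψ ^ 2 -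
        L * (η * ∑ ψ, lop p h ψ ^ 2 + (1 + 1 / η) * ∑ ψ, hip p h ψ ^ 2) := by
    rw [Finset.sum_sub_distrib, ← Finset.mul_sum, Finset.sum_add_distrib, ← Finset.mul_sum,
      ← Finset.mul_sum]
  rw [h2] at h1
  have h3 := hD h
  have h4 := Gen_lo p h
  have h5 : L * (η * ∑ ψ, lop p h ψ ^ 2 + (1 + 1 / η) * ∑ ψ, hip p h ψ ^ 2) ≤
      L * (η * ∑ ψ, h ψ ^ 2 + (1 + 1 / η) * ∑ ψ, hip p h ψ ^ 2) := by
    apply mul_le_mul_of_nonneg_left _ hL0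
    have := mul_le_mul_of_nonneg_left h4 hη.le
    linarith
  linarith

theorem Gen_hilin {κ : Type} (p : Finset ι → Prop) (S : Finset κ) (c : κ → ℝ)
    (h : κ → (ι → A) → ℝ) (ψ : ι → A) :
    hip p (fun ψ => ∑ j ∈ S, c j * h j ψ) ψ = ∑ j ∈ S, c j * hip p (h j) ψ := by
  classical
  unfold hip
  rw [Finset.sum_congr rfl (fun B _ => Efa_lin S c h B ψ), Finset.sum_comm]
  apply Finset.sum_congr rfl
  intro j _
  rw [Finset.mul_sum]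

theorem Gen_one {R : ℕ} (p : Finset ι → Prop) (D : (ι → A) → ℝ) (L : ℝ) (hL0 : 0 ≤ L) (hL : ∀ ψ, |D ψ| ≤ L)
    (hD : ∀ h : (ι → A) → ℝ, 0 ≤ ∑ ψ, D ψ * lop p h ψ ^ 2)
    (Q : Matrix (Fin R) (Fin R) ℝ) (hQ : Q.PosSemidef) (T : (ι → A) → Matrix (Fin R) (Fin R) ℝ)
    (hT : ∀ ψ, (T ψ).transpose = T ψ) (η : ℝ) (hη : 0 < η) :
    -(L * (η * ∑ ψ, (Q * (T ψ * T ψ)).trace +
      (1 + 1 / η) * (Q.trace * ∑ a, ∑ b, ∑ ψ, hip p (fun ψ => T ψ a b) ψ ^ 2))) ≤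
    ∑ ψ : ι → A, D ψ * (Q * (T ψ * T ψ)).trace := by
  obtain ⟨C, rfl⟩ := One_fac hQ
  have h1 : ∀ ψ, (C.transpose * C * (T ψ * T ψ)).trace = ∑ a, ∑ b, (∑ c, C a c * T ψ c b) ^ 2 :=
    fun ψ => One_tr C (T ψ) (hT ψ)
  have h2 : ∑ a, ∑ b, ∑ ψ : ι → A, D ψ * (∑ c, C a c * T ψ c b) ^ 2 =
      ∑ ψ : ι → A, D ψ * (C.transpose * C * (T ψ * T ψ)).trace := by
    have e1 : ∀ ψ : ι → A, D ψ * (C.transpose * C * (T ψ * T ψ)).trace =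
        ∑ a, ∑ b, D ψ * (∑ c, C a c * T ψ c b) ^ 2 := by
      intro ψ
      rw [h1 ψ, Finset.mul_sum]
      apply Finset.sum_congr rfl
      intro a _
      rw [Finset.mul_sum]
    rw [Finset.sum_congr rfl (fun ψ _ => e1 ψ)]
    exact One_c3 (fun a b ψ => D ψ * (∑ c, C a c * T ψ c b) ^ 2)
  have h3 : ∑ a, ∑ b, ∑ ψ : ι → A, (∑ c, C a c * T ψ c b) ^ 2 =
      ∑ ψ : ι → A, (C.transpose * C * (T ψ * T ψ)).trace := by
    rw [Finset.sum_congr rfl (fun ψ _ => h1 ψ)]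
    exact One_c3 (fun a b ψ => (∑ c, C a c * T ψ c b) ^ 2)
  have h4 : ∑ a, ∑ b, ∑ ψ : ι → A, hip p (fun ψ => ∑ c, C a c * T ψ c b) ψ ^ 2 ≤
      (C.transpose * C).trace * ∑ a, ∑ b, ∑ ψ, hip p (fun ψ => T ψ a b) ψ ^ 2 := by
    have e1 : ∑ a, ∑ b, ∑ ψ : ι → A, hip p (fun ψ => ∑ c, C a c * T ψ c b) ψ ^ 2 =
        ∑ ψ : ι → A, ∑ a, ∑ b, (∑ c, C a c * hip p (fun ψ => T ψ c b) ψ) ^ 2 := by
      have e2 : ∀ a b (ψ : ι → A), hip p (fun ψ => ∑ c, C a c * T ψ c b) ψ =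
          ∑ c, C a c * hip p (fun ψ => T ψ c b) ψ := fun a b ψ =>
        Gen_hilin p univ (fun c => C a c) (fun c ψ => T ψ c b) ψ
      simp only [e2]
      exact One_c3 (fun a b ψ => (∑ c, C a c * hip p (fun ψ => T ψ c b) ψ) ^ 2)
    have e3 : ∑ a, ∑ b, ∑ ψ, hip p (fun ψ => T ψ a b) ψ ^ 2 =
        ∑ ψ, ∑ a, ∑ b, hip p (fun ψ => T ψ a b) ψ ^ 2 :=
      One_c3 (fun a b ψ => hip p (fun ψ => T ψ a b) ψ ^ 2)
    rw [e1, e3, Finset.mul_sum]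
    apply Finset.sum_le_sum
    intro ψ _
    exact One_cs C (fun c b => hip p (fun ψ => T ψ c b) ψ)
  have h5 : ∑ a, ∑ b, -(L * (η * ∑ ψ : ι → A, (∑ c, C a c * T ψ c b) ^ 2 +
      (1 + 1 / η) * ∑ ψ, hip p (fun ψ => ∑ c, C a c * T ψ c b) ψ ^ 2)) ≤
      ∑ a, ∑ b, ∑ ψ : ι → A, D ψ * (∑ c, C a c * T ψ c b) ^ 2 := by
    apply Finset.sum_le_sum
    intro a _
    apply Finset.sum_le_sum
    intro b _
    exact Gen_sc p D L hL0 hL hD (fun ψ => ∑ c, C a c * T ψ c b) η hη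
  have h6 : ∑ a, ∑ b, -(L * (η * ∑ ψ : ι → A, (∑ c, C a c * T ψ c b) ^ 2 +
      (1 + 1 / η) * ∑ ψ, hip p (fun ψ => ∑ c, C a c * T ψ c b) ψ ^ 2)) =
      -(L * (η * ∑ a, ∑ b, ∑ ψ : ι → A, (∑ c, C a c * T ψ c b) ^ 2 +
      (1 + 1 / η) * ∑ a, ∑ b, ∑ ψ, hip p (fun ψ => ∑ c, C a c * T ψ c b) ψ ^ 2)) := by
    simp only [Finset.sum_neg_distrib, ← Finset.mul_sum, Finset.sum_add_distrib]
  rw [h6, h2, h3] at h5
  refine le_trans ?_ h5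
  apply neg_le_neg
  apply mul_le_mul_of_nonneg_left _ hL0
  have hη1 : 0 ≤ 1 + 1 / η := by positivity
  have := mul_le_mul_of_nonneg_left h4 hη1
  linarith

open Classical in
theorem Gen_sum {Φ : Type} [Fintype Φ] {R : ℕ} (p : Φ → Finset ι → Prop) (V : Finset ι → Prop)
    (D : Φ → (ι → A) → ℝ) (L : ℝ) (hL0 : 0 ≤ L) (hL : ∀ F ψ, |D F ψ| ≤ L)
    (hD : ∀ (F : Φ) (h : (ι → A) → ℝ), 0 ≤ ∑ ψ, D F ψ * lop (p F) h ψ ^ 2)
    (hne : 0 < Fintype.card Φ)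
    (Q : Φ → Matrix (Fin R) (Fin R) ℝ) (hQ : ∀ F, (Q F).PosSemidef)
    (hQ1 : ((1 : Matrix (Fin R) (Fin R) ℝ) - (1 / (Fintype.card Φ : ℝ)) • ∑ F, Q F).PosSemidef)
    (S : Finset Φ) (τ : ℝ) (hτ : 0 ≤ τ) (hS : ∀ F ∈ S, (Q F).trace ≤ τ)
    (T : (ι → A) → Matrix (Fin R) (Fin R) ℝ) (hT : ∀ ψ, (T ψ).transpose = T ψ)
    (hTm : ∀ a b B, ¬ V B → ∀ ψ, es B (fun ψ => T ψ a b) ψ = 0) (η : ℝ) (hη : 0 < η) (δ : ℝ) (hδ0 : 0 ≤ δ)
    (hδ : ∀ B : Finset ι, V B → ((univ.filter (fun F => ¬ p F B)).card : ℝ) ≤ δ * Fintype.card Φ) :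
    -(L * (η + (1 + 1 / η) * (τ * δ)) * ∑ ψ, (T ψ * T ψ).trace) ≤
      ∑ ψ : ι → A, (((1 / (Fintype.card Φ : ℝ)) • ∑ F ∈ S, D F ψ • Q F) * (T ψ * T ψ)).trace := by
  have hN : (0 : ℝ) < (Fintype.card Φ : ℝ) := by exact_mod_cast hne
  set Nc : ℝ := (Fintype.card Φ : ℝ) with hNc
  set W : ℝ := ∑ ψ, (T ψ * T ψ).trace with hW
  have hη' : 0 ≤ 1 + 1 / η := by positivity
  -- the right side
  have e1 : ∑ ψ : ι → A, (((1 / Nc) • ∑ F ∈ S, D F ψ • Q F) * (T ψ * T ψ)).trace =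
      (1 / Nc) * ∑ F ∈ S, ∑ ψ : ι → A, D F ψ * (Q F * (T ψ * T ψ)).trace := by
    rw [Finset.sum_comm, Finset.mul_sum]
    refine Finset.sum_congr rfl fun ψ _ => ?_
    rw [Matrix.smul_mul, Matrix.trace_smul, smul_eq_mul, Finset.sum_mul, Matrix.trace_sum]
    congr 1
    refine Finset.sum_congr rfl fun F _ => ?_
    rw [Matrix.smul_mul, Matrix.trace_smul, smul_eq_mul]
  rw [e1]
  -- the first bound
  have hA0 : ∀ F, 0 ≤ ∑ ψ, (Q F * (T ψ * T ψ)).trace := fun F =>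
    Finset.sum_nonneg fun ψ _ => Sum_tr (Q F) (T ψ) (hQ F) (hT ψ)
  have b1 : ∑ F ∈ S, ∑ ψ, (Q F * (T ψ * T ψ)).trace ≤ Nc * W := by
    have c1 : ∑ F ∈ S, ∑ ψ, (Q F * (T ψ * T ψ)).trace ≤ ∑ F, ∑ ψ, (Q F * (T ψ * T ψ)).trace :=
      Finset.sum_le_sum_of_subset_of_nonneg (Finset.subset_univ S) fun F _ _ => hA0 F
    refine c1.trans ?_
    rw [Finset.sum_comm, hW, Finset.mul_sum]
    refine Finset.sum_le_sum fun ψ _ => ?_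
    have c2 := Sum_tr _ (T ψ) hQ1 (hT ψ)
    rw [Matrix.sub_mul, Matrix.trace_sub, Matrix.one_mul, Matrix.smul_mul, Matrix.trace_smul, smul_eq_mul,
      Finset.sum_mul, Matrix.trace_sum] at c2
    have c3 : 1 / Nc * ∑ F, (Q F * (T ψ * T ψ)).trace ≤ (T ψ * T ψ).trace := by linarith
    rw [one_div, inv_mul_le_iff₀ hN] at c3
    exact c3
  -- the second bound
  have hH0 : ∀ F : Φ, 0 ≤ ∑ a, ∑ b, ∑ ψ, hip (p F) (fun ψ => T ψ a b) ψ ^ 2 := fun F =>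
    Finset.sum_nonneg fun a _ => Finset.sum_nonneg fun b _ => Finset.sum_nonneg fun ψ _ => sq_nonneg _
  have b2 : ∑ F ∈ S, (Q F).trace * ∑ a, ∑ b, ∑ ψ, hip (p F) (fun ψ => T ψ a b) ψ ^ 2 ≤
      τ * δ * (Nc * W) := by
    have c1 : ∑ F ∈ S, (Q F).trace * ∑ a, ∑ b, ∑ ψ, hip (p F) (fun ψ => T ψ a b) ψ ^ 2 ≤
        ∑ F ∈ S, τ * ∑ a, ∑ b, ∑ ψ, hip (p F) (fun ψ => T ψ a b) ψ ^ 2 :=
      Finset.sum_le_sum fun F hF => mul_le_mul_of_nonneg_right (hS F hF) (hH0 F)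
    have c2 : ∑ F ∈ S, τ * ∑ a, ∑ b, ∑ ψ, hip (p F) (fun ψ => T ψ a b) ψ ^ 2 ≤
        ∑ F, τ * ∑ a, ∑ b, ∑ ψ, hip (p F) (fun ψ => T ψ a b) ψ ^ 2 :=
      Finset.sum_le_sum_of_subset_of_nonneg (Finset.subset_univ S) fun F _ _ => mul_nonneg hτ (hH0 F)
    refine c1.trans (c2.trans ?_)
    rw [← Finset.mul_sum, mul_assoc]
    refine mul_le_mul_of_nonneg_left ?_ hτ
    have c3 : ∑ F : Φ, ∑ a, ∑ b, ∑ ψ, hip (p F) (fun ψ => T ψ a b) ψ ^ 2 =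
        ∑ a, ∑ b, ∑ F : Φ, ∑ ψ, hip (p F) (fun ψ => T ψ a b) ψ ^ 2 := by
      rw [Finset.sum_comm]
      refine Finset.sum_congr rfl fun a _ => ?_
      rw [Finset.sum_comm]
    have c4 : δ * (Nc * W) = ∑ a, ∑ b, δ * Nc * ∑ ψ, T ψ a b ^ 2 := by
      have c5 : W = ∑ a, ∑ b, ∑ ψ, T ψ a b ^ 2 := by
        rw [hW, Finset.sum_congr rfl fun ψ _ => Sum_sq (T ψ) (hT ψ), Finset.sum_comm]
        refine Finset.sum_congr rfl fun a _ => ?_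
        rw [Finset.sum_comm]
      rw [c5, ← mul_assoc, Finset.mul_sum]
      refine Finset.sum_congr rfl fun a _ => ?_
      rw [Finset.mul_sum]
    rw [c3, c4]
    exact Finset.sum_le_sum fun a _ => Finset.sum_le_sum fun b _ =>
      Gen_hit p V δ hδ0 (fun ψ => T ψ a b) hδ (hTm a b)
  -- the sum of the inequalities
  have b3 : -(L * (η * (Nc * W) + (1 + 1 / η) * (τ * δ * (Nc * W)))) ≤
      ∑ F ∈ S, ∑ ψ : ι → A, D F ψ * (Q F * (T ψ * T ψ)).trace := by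
    refine le_trans ?_ (Finset.sum_le_sum fun F _ =>
      Gen_one (p F) (D F) L hL0 (hL F) (hD F) (Q F) (hQ F) T hT η hη)
    rw [Finset.sum_neg_distrib, ← Finset.mul_sum, Finset.sum_add_distrib, ← Finset.mul_sum,
      ← Finset.mul_sum]
    apply neg_le_neg
    refine mul_le_mul_of_nonneg_left ?_ hL0
    exact add_le_add (mul_le_mul_of_nonneg_left b1 hη.le) (mul_le_mul_of_nonneg_left b2 hη')
  have b4 := mul_le_mul_of_nonneg_left b3 (by positivity : (0 : ℝ) ≤ 1 / Nc)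
  refine le_trans (le_of_eq ?_) b4
  have hN' : Nc ≠ 0 := hN.ne'
  field_simp

end Pool.Agent.H9.SE
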