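import Pool.Agent.H9.SE.Dna
import Pool.Agent.H9.SE.Gen

/-!
Module Dnb.  Positivity.   Use only the STATEMENTS of Vsa, Dna, Efa.
`lop p h ψ = ∑ B with p B, es B h ψ`; expand the square: `∑ B, ∑ B', ∑ ψ, Dn (2 s) U ψ * (es B h ψ * es B' h ψ)`.  `es B h * es B' h` depends on `B ∪ B'` (`Efa_dep`) and
`(vs (B ∪ B') ∩ U).card ≤ s + s` (`Vsa_union`, `Finset.union_inter_distrib_right`, `card_union_le`), so `Dna_main` replaces `Dn (2 s) U` by `Dl U`; sum back: `∑ ψ, Dl U ψ * lop p h ψ ^ 2 ≥ 0` (`Dna_nonneg`).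
-/

set_option autoImplicit false
set_option linter.unusedSectionVars false

open Finset

namespace Pool.Agent.H9.SE

open Pool.Agent.H9.SD

theorem Dnb_exp {ι A : Type} [Fintype ι] [DecidableEq ι] [Fintype A] [DecidableEq A]
    (F : Finset (Finset ι)) (D : (ι → A) → ℝ) (g : Finset ι → (ι → A) → ℝ) :
    ∑ ψ, D ψ * (∑ B ∈ F, g B ψ) ^ 2 = ∑ B ∈ F, ∑ B' ∈ F, ∑ ψ, D ψ * (g B ψ * g B' ψ) := by
  have h1 : ∀ ψ, D ψ * (∑ B ∈ F, g B ψ) ^ 2 = ∑ B ∈ F, ∑ B' ∈ F, D ψ * (g B ψ * g B' ψ) := by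
    intro ψ
    rw [sq, Finset.sum_mul_sum, Finset.mul_sum]
    exact Finset.sum_congr rfl fun B _ => Finset.mul_sum _ _ _
  simp only [h1]
  rw [Finset.sum_comm]
  exact Finset.sum_congr rfl fun B _ => Finset.sum_comm

theorem Dnb_lop {N q : ℕ} (s : ℕ) (U : Finset (Fin N)) (h : (Sym2 (Fin N) → Fin q) → ℝ) :
    ∃ F : Finset (Finset (Sym2 (Fin N))), (∀ B ∈ F, (vs B ∩ U).card ≤ s) ∧
      ∀ ψ, lop (fun B => (vs B ∩ U).card ≤ s) h ψ = ∑ B ∈ F, es B h ψ := by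
  classical
  refine ⟨@Finset.filter _ (fun B => (vs B ∩ U).card ≤ s) (fun a => Classical.propDecidable _) univ,
    ?_, fun ψ => rfl⟩
  intro B hB
  rw [@Finset.mem_filter] at hB
  exact hB.2

theorem Dnb_main {N q : ℕ} (hq : 1 ≤ q) (s : ℕ) (U : Finset (Fin N)) (h : (Sym2 (Fin N) → Fin q) → ℝ) :
    0 ≤ ∑ ψ, Dn (2 * s) U ψ * lop (fun B => (vs B ∩ U).card ≤ s) h ψ ^ 2 := by
  have hne : Nonempty (Fin q) := ⟨⟨0, hq⟩⟩
  obtain ⟨F, hF, hl⟩ := Dnb_lop s U h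
  simp only [hl]
  have hkey : ∑ ψ, Dn (2 * s) U ψ * (∑ B ∈ F, es B h ψ) ^ 2 = ∑ ψ, Dl U ψ * (∑ B ∈ F, es B h ψ) ^ 2 := by
    rw [Dnb_exp F (fun ψ => Dn (2 * s) U ψ) (fun B => es B h), Dnb_exp F (fun ψ => Dl U ψ) (fun B => es B h)]
    refine Finset.sum_congr rfl fun B hB => Finset.sum_congr rfl fun B' hB' => ?_
    refine Dna_main hq (2 * s) U (B ∪ B') ?_ (fun ψ => es B h ψ * es B' h ψ) ?_
    · rw [Vsa_union, Finset.union_inter_distrib_right]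
      refine le_trans (Finset.card_union_le _ _) ?_
      have h1 := hF B hB
      have h2 := hF B' hB'
      omega
    · intro ψ ψ' hψ
      have h1 := Efa_dep B h ψ ψ' fun v hv => hψ v (Finset.mem_union_left _ hv)
      have h2 := Efa_dep B' h ψ ψ' fun v hv => hψ v (Finset.mem_union_right _ hv)
      simp only [h1, h2]
  rw [hkey]
  exact Finset.sum_nonneg fun ψ _ => mul_nonneg (Dna_nonneg U ψ) (sq_nonneg _)

end Pool.Agent.H9.SE
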