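import Pool.Agent.H9.SE.Vsa

/-!
Module Dnc.  The sup norm of the pseudo-density.   Use only the STATEMENTS of Vsa.
`|Dn m U ψ| ≤ ∑ T ∈ (ed U).powerset with (vs T).card ≤ m, ∏ e ∈ T, |phi q (ψ e)|` (`Finset.abs_sum_le_sum_abs`, `Finset.abs_prod`).  Each such `T` satisfies `T ⊆ ed (vs T)` (`Vsa_ed_vs`), `vs T ⊆ U`, so the sum is at most
`∑ J ∈ U.powerset with J.card ≤ m, ∑ T ∈ (ed J).powerset, ∏ e ∈ T, |phi q (ψ e)|` (terms are `≥ 0`; e.g. `Finset.sum_le_sum_of_subset_of_nonneg` after `Finset.sum_biUnion_le` / or `Finset.sum_comp`-free: bound the sum over `T` by the sum over the sigma type via the injection `T ↦ (vs T, T)`), and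
the inner sum is `∏ e ∈ ed J, (1 + |phi q (ψ e)|) ≤ q ^ (ed J).card ≤ q ^ (m.choose 2)` (`Finset.prod_one_add`, `1 + |phi q a| ≤ q` for `2 ≤ q`, `Vsa_card`, `Nat.choose_le_choose`).  The number of `J` is at most `2 ^ U.card`.
-/

set_option autoImplicit false
set_option linter.unusedSectionVars false

open Finset

namespace Pool.Agent.H9.SE

open Pool.Agent.H9.SD

private theorem Dnc_phi {q : ℕ} (hq : 2 ≤ q) (a : Fin q) : 1 + |phi q a| ≤ q := by
  have h2 : (2 : ℝ) ≤ q := by exact_mod_cast hq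
  unfold phi
  split_ifs
  · rw [abs_of_nonneg (by linarith)]
    linarith
  · rw [abs_neg, abs_one]
    linarith

theorem Dnc_main {N q : ℕ} (hq : 2 ≤ q) (m : ℕ) (U : Finset (Fin N)) (ψ : Sym2 (Fin N) → Fin q) :
    |Dn m U ψ| ≤ 2 ^ U.card * (q : ℝ) ^ (m.choose 2) := by
  have hq1 : (1 : ℝ) ≤ q := by exact_mod_cast (by omega : 1 ≤ q)
  obtain ⟨P, hP⟩ : ∃ P : Finset (Finset (Sym2 (Fin N))), P =
    (ed U).powerset.filter (fun T => (vs T).card ≤ m) := ⟨_, rfl⟩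
  obtain ⟨Js, hJs⟩ : ∃ Js : Finset (Finset (Fin N)), Js =
    U.powerset.filter (fun J => J.card ≤ m) := ⟨_, rfl⟩
  have h1 : |Dn m U ψ| ≤ ∑ T ∈ P, ∏ e ∈ T, |phi q (ψ e)| := by
    unfold Dn
    rw [← hP]
    refine (Finset.abs_sum_le_sum_abs _ _).trans (Finset.sum_le_sum fun T _ => ?_)
    rw [Finset.abs_prod]
  have hmap : ∀ T ∈ P, vs T ∈ Js := by
    intro T hT
    rw [hP, Finset.mem_filter, Finset.mem_powerset] at hT
    rw [hJs, Finset.mem_filter, Finset.mem_powerset]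
    exact ⟨Vsa_vs_ed hT.1, hT.2⟩
  have h2 : ∑ T ∈ P, ∏ e ∈ T, |phi q (ψ e)| ≤ ∑ J ∈ Js, ∑ T ∈ (ed J).powerset, ∏ e ∈ T, |phi q (ψ e)| := by
    rw [← Finset.sum_fiberwise_of_maps_to hmap]
    refine Finset.sum_le_sum fun J _ => ?_
    refine Finset.sum_le_sum_of_subset_of_nonneg ?_ fun T _ _ => Finset.prod_nonneg fun e _ => abs_nonneg _
    intro T hT
    rw [Finset.mem_filter, hP, Finset.mem_filter, Finset.mem_powerset] at hT
    rw [Finset.mem_powerset, ← hT.2]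
    exact Vsa_ed_vs hT.1.1
  have h3 : ∀ J ∈ Js, ∑ T ∈ (ed J).powerset, ∏ e ∈ T, |phi q (ψ e)| ≤ (q : ℝ) ^ (m.choose 2) := by
    intro J hJ
    rw [hJs, Finset.mem_filter] at hJ
    rw [← Finset.prod_one_add]
    calc ∏ e ∈ ed J, (1 + |phi q (ψ e)|) ≤ ∏ e ∈ ed J, (q : ℝ) := by
          refine Finset.prod_le_prod (fun e _ => ?_) fun e _ => Dnc_phi hq _
          have := abs_nonneg (phi q (ψ e))
          linarith
      _ = (q : ℝ) ^ (ed J).card := by rw [Finset.prod_const]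
      _ ≤ (q : ℝ) ^ (m.choose 2) := by
          refine pow_le_pow_right₀ hq1 ?_
          rw [Vsa_card]
          exact Nat.choose_le_choose 2 hJ.2
  have h4 : (Js.card : ℝ) ≤ 2 ^ U.card := by
    have h5 : Js.card ≤ 2 ^ U.card := by
      rw [← Finset.card_powerset, hJs]
      exact Finset.card_filter_le _ _
    exact_mod_cast h5
  have h6 := (h1.trans h2).trans (Finset.sum_le_card_nsmul Js _ _ h3)
  rw [nsmul_eq_mul] at h6
  exact h6.trans (mul_le_mul_of_nonneg_right h4 (by positivity))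

end Pool.Agent.H9.SE
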