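import Pool.Agent.H9.SE.Dna

/-!
Module Dnd.  The pseudo-expectation of a local objective.   Use only the STATEMENTS of Vsa, Dna.
`Dnd_dep`: for `i, j ∈ J`, `((colourGraph ψ).comap F).Adj i j ↔ F i ≠ F j ∧ (ψ s(F i, F j) : ℕ) = 0`, and `s(F i, F j) ∈ ed (J.map F)` if `F i ≠ F j` (`Vsa_pair`).
`Dnd_main`: with `g` from `LocalObjective (2 * s) w`, `w ((colourGraph ψ).comap F) = ∑ J with J.card ≤ 2 s, g J (..)`, and `ψ ↦ g J ((colourGraph ψ).comap F)` depends on `ed (J.map F)` (`Dnd_dep`), `vs (ed (J.map F)) ⊆ J.map F` (`Vsa_vs_ed`) has at most `2 s` elements,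
so `Dna_main` replaces `Dn` by `Dl` in each term (also in the constant term, with `C = ∅`).  If `Dl (im F) ψ ≠ 0` then `(colourGraph ψ).comap F = ⊤` (`Dna_supp`, `Vsa_pair`, `F` injective), so `Dl * (w ⊤ - ρ - w (..)) = Dl * (-ρ)`; `Dna_sum`.
`Dnd_depf`: `Dna_depn` and `Dnd_dep` with `J = univ` (`im F = univ.map F`).
-/

set_option autoImplicit false
set_option linter.unusedSectionVars false

open Finset

namespace Pool.Agent.H9.SE

open Pool.Agent.H9.SD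

theorem Dnd_dep {N q k : ℕ} (F : Fin k ↪ Fin N) (J : Finset (Fin k)) (ψ ψ' : Sym2 (Fin N) → Fin q)
    (h : ∀ e ∈ ed (J.map F), ψ e = ψ' e) :
    ∀ i ∈ J, ∀ j ∈ J, ((colourGraph ψ).comap F).Adj i j ↔ ((colourGraph ψ').comap F).Adj i j := by
  intro i hi j hj
  change (F i ≠ F j ∧ (ψ s(F i, F j) : ℕ) = 0) ↔ (F i ≠ F j ∧ (ψ' s(F i, F j) : ℕ) = 0)
  by_cases hne : F i = F j
  · constructor
    · intro h1
      exact absurd hne h1.1
    · intro h1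
      exact absurd hne h1.1
  · rw [h _ (Vsa_pair (J.map F) (F i) (F j) hne (Finset.mem_map_of_mem F hi)
      (Finset.mem_map_of_mem F hj))]

theorem Dnd_top {N q k : ℕ} (F : Fin k ↪ Fin N) (ψ : Sym2 (Fin N) → Fin q) (h : Dl (im F) ψ ≠ 0) :
    (colourGraph ψ).comap F = ⊤ := by
  ext i j
  change (F i ≠ F j ∧ (ψ s(F i, F j) : ℕ) = 0) ↔ i ≠ j
  constructor
  · rintro ⟨h1, _⟩ rfl
    exact h1 rfl
  · intro h1
    have h2 : F i ≠ F j := fun h3 => h1 (F.injective h3)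
    exact ⟨h2, Dna_supp (im F) ψ h _ (Vsa_pair (im F) (F i) (F j) h2
      (Finset.mem_map_of_mem F (Finset.mem_univ i)) (Finset.mem_map_of_mem F (Finset.mem_univ j)))⟩

theorem Dnd_main {N q k : ℕ} (hq : 1 ≤ q) (s : ℕ) (w : SimpleGraph (Fin k) → ℝ) (hw : LocalObjective (2 * s) w)
    (ρ : ℝ) (F : Fin k ↪ Fin N) :
    ∑ ψ : Sym2 (Fin N) → Fin q, Dn (2 * s) (im F) ψ * (w ⊤ - ρ - w ((colourGraph ψ).comap F)) =
      -ρ * (Fintype.card (Sym2 (Fin N) → Fin q) : ℝ) := by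
  obtain ⟨g, hg, hsum⟩ := hw
  have e1 : ∀ D : (Sym2 (Fin N) → Fin q) → ℝ,
      ∑ ψ : Sym2 (Fin N) → Fin q, D ψ * (w ⊤ - ρ - w ((colourGraph ψ).comap F)) =
      ∑ ψ : Sym2 (Fin N) → Fin q, D ψ * (w ⊤ - ρ) -
        ∑ J ∈ (univ : Finset (Finset (Fin k))).filter (fun J => J.card ≤ 2 * s),
          ∑ ψ : Sym2 (Fin N) → Fin q, D ψ * g J ((colourGraph ψ).comap F) := by
    intro D
    rw [Finset.sum_comm, ← Finset.sum_sub_distrib]
    refine Finset.sum_congr rfl fun ψ _ => ?_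
    rw [hsum ((colourGraph ψ).comap F), mul_sub, Finset.mul_sum]
  have e2 : ∑ ψ : Sym2 (Fin N) → Fin q, Dn (2 * s) (im F) ψ * (w ⊤ - ρ) =
      ∑ ψ : Sym2 (Fin N) → Fin q, Dl (im F) ψ * (w ⊤ - ρ) := by
    refine Dna_main hq (2 * s) (im F) ∅ ?_ (fun _ => w ⊤ - ρ) (fun _ _ _ => rfl)
    have h1 : vs (∅ : Finset (Sym2 (Fin N))) = ∅ := rfl
    rw [h1, Finset.empty_inter, Finset.card_empty]
    exact Nat.zero_le _
  have e3 : ∀ J ∈ (univ : Finset (Finset (Fin k))).filter (fun J => J.card ≤ 2 * s),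
      ∑ ψ : Sym2 (Fin N) → Fin q, Dn (2 * s) (im F) ψ * g J ((colourGraph ψ).comap F) =
      ∑ ψ : Sym2 (Fin N) → Fin q, Dl (im F) ψ * g J ((colourGraph ψ).comap F) := by
    intro J hJ
    refine Dna_main hq (2 * s) (im F) (ed (J.map F)) ?_ (fun ψ => g J ((colourGraph ψ).comap F)) ?_
    · refine (Finset.card_le_card Finset.inter_subset_left).trans ?_
      refine (Finset.card_le_card (Vsa_vs_ed (Finset.Subset.refl _))).trans ?_
      rw [Finset.card_map]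
      exact (Finset.mem_filter.1 hJ).2
    · intro ψ ψ' h
      exact hg J _ _ (Dnd_dep F J ψ ψ' h)
  have e4 : ∑ ψ : Sym2 (Fin N) → Fin q, Dn (2 * s) (im F) ψ *
        (w ⊤ - ρ - w ((colourGraph ψ).comap F)) =
      ∑ ψ : Sym2 (Fin N) → Fin q, Dl (im F) ψ * (w ⊤ - ρ - w ((colourGraph ψ).comap F)) := by
    rw [e1, e1, e2, Finset.sum_congr rfl e3]
  rw [e4]
  have e5 : ∀ ψ : Sym2 (Fin N) → Fin q, Dl (im F) ψ * (w ⊤ - ρ - w ((colourGraph ψ).comap F)) =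
      Dl (im F) ψ * (-ρ) := by
    intro ψ
    by_cases h : Dl (im F) ψ = 0
    · rw [h, zero_mul, zero_mul]
    · rw [Dnd_top F ψ h]
      ring
  rw [Finset.sum_congr rfl (fun ψ _ => e5 ψ), ← Finset.sum_mul, Dna_sum hq, mul_comm]

theorem Dnd_depf {N q k : ℕ} (m : ℕ) (w : SimpleGraph (Fin k) → ℝ) (ρ : ℝ) (F : Fin k ↪ Fin N) :
    Dep (ed (im F)) (fun ψ : Sym2 (Fin N) → Fin q => Dn m (im F) ψ * (w ⊤ - ρ - w ((colourGraph ψ).comap F))) := by
  intro ψ ψ' h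
  have h1 : Dn m (im F) ψ = Dn m (im F) ψ' := Dna_depn m (im F) ψ ψ' h
  have h2 : (colourGraph ψ).comap F = (colourGraph ψ').comap F := by
    ext i j
    exact Dnd_dep F univ ψ ψ' h i (Finset.mem_univ i) j (Finset.mem_univ j)
  simp only
  rw [h1, h2]

end Pool.Agent.H9.SE
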