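import Pool.Agent.H9.SE.Dnc

/-!
Module Dnk.  The sup norm of the pseudo-density, polynomial in the number of indices.
`Dnk_card`: each such `J` is the set of values of some `f : Fin m → Option (Fin N)` with values in `insertNone U` (list `J`, fill up with `none`); `Finset.card_image_le`, `Fintype.card_piFinset`, `Finset.card_insertNone`.
`Dnk_main`: the proof of `Dnc_main` (copy it) with `Dnk_card` in the place of the bound `2 ^ U.card` for the number of `J`.
-/

set_option autoImplicit false
set_option linter.unusedSectionVars false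

open Finset

namespace Pool.Agent.H9.SE

open Pool.Agent.H9.SD

theorem Dnk_card {N : ℕ} (m : ℕ) (U : Finset (Fin N)) :
    (U.powerset.filter (fun J => J.card ≤ m)).card ≤ (U.card + 1) ^ m := by
  induction m with
  | zero =>
    have h : U.powerset.filter (fun J => J.card ≤ 0) ⊆ {∅} := by
      intro J hJ
      rw [Finset.mem_filter] at hJ
      rw [Finset.mem_singleton]
      exact Finset.card_eq_zero.1 (Nat.le_zero.1 hJ.2)
    refine (Finset.card_le_card h).trans ?_
    rw [Finset.card_singleton, pow_zero]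
  | succ m ih =>
    have h : U.powerset.filter (fun J => J.card ≤ m + 1) ⊆
        ((U.powerset.filter (fun J => J.card ≤ m)) ×ˢ (Finset.insertNone U)).image
          (fun p => p.1 ∪ p.2.toFinset) := by
      intro J hJ
      rw [Finset.mem_filter, Finset.mem_powerset] at hJ
      rw [Finset.mem_image]
      by_cases hm : J.card ≤ m
      · refine ⟨(J, none), ?_, ?_⟩
        · rw [Finset.mem_product, Finset.mem_filter, Finset.mem_powerset]
          exact ⟨⟨hJ.1, hm⟩, Finset.none_mem_insertNone⟩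
        · show J ∪ (none : Option (Fin N)).toFinset = J
          rw [Option.toFinset_none, Finset.union_empty]
      · obtain ⟨x, hx⟩ : J.Nonempty := Finset.card_pos.1 (by omega)
        refine ⟨(J.erase x, some x), ?_, ?_⟩
        · rw [Finset.mem_product, Finset.mem_filter, Finset.mem_powerset]
          refine ⟨⟨(Finset.erase_subset _ _).trans hJ.1, ?_⟩, Finset.some_mem_insertNone.2 (hJ.1 hx)⟩
          show (J.erase x).card ≤ m
          rw [Finset.card_erase_of_mem hx]
          omega
        · show J.erase x ∪ (some x).toFinset = J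
          rw [Option.toFinset_some, Finset.union_comm, ← Finset.insert_eq, Finset.insert_erase hx]
    calc (U.powerset.filter (fun J => J.card ≤ m + 1)).card
        ≤ (((U.powerset.filter (fun J => J.card ≤ m)) ×ˢ (Finset.insertNone U)).image
          (fun p => p.1 ∪ p.2.toFinset)).card := Finset.card_le_card h
      _ ≤ ((U.powerset.filter (fun J => J.card ≤ m)) ×ˢ (Finset.insertNone U)).card :=
          Finset.card_image_le
      _ = (U.powerset.filter (fun J => J.card ≤ m)).card * (U.card + 1) := by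
          rw [Finset.card_product, Finset.card_insertNone]
      _ ≤ (U.card + 1) ^ m * (U.card + 1) := Nat.mul_le_mul_right _ ih
      _ = (U.card + 1) ^ (m + 1) := (pow_succ _ _).symm

private theorem Dnk_phi {q : ℕ} (hq : 2 ≤ q) (a : Fin q) : 1 + |phi q a| ≤ q := by
  have h2 : (2 : ℝ) ≤ q := by exact_mod_cast hq
  unfold phi
  split_ifs
  · rw [abs_of_nonneg (by linarith)]
    linarith
  · rw [abs_neg, abs_one]
    linarith

theorem Dnk_main {N q : ℕ} (hq : 2 ≤ q) (m : ℕ) (U : Finset (Fin N)) (ψ : Sym2 (Fin N) → Fin q) :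
    |Dn m U ψ| ≤ ((U.card + 1 : ℕ) : ℝ) ^ m * (q : ℝ) ^ (m.choose 2) := by
  have hq1 : (1 : ℝ) ≤ q := by exact_mod_cast (by omega : 1 ≤ q)
  obtain ⟨P, hP⟩ : ∃ P : Finset (Finset (Sym2 (Fin N))), P =
    (ed U).powerset.filter (fun T => (vs T).card ≤ m) := ⟨_, rfl⟩
  obtain ⟨Js, hJs⟩ : ∃ Js : Finset (Finset (Fin N)), Js =
    U.powerset.filter (fun J => J.card ≤ m) := ⟨_, rfl⟩
  have h1 : |Dn m U ψ| ≤ ∑ T ∈ P, ∏ e ∈ T, |phi q (ψ e)| := by
    unfold Dn
    rw [← hP]
    refine (Finset.abs_sum_le_sum_abs _ _).trans (Finset.sum_le_sum fun T _ => ?_)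
    rw [Finset.abs_prod]
  have hmap : ∀ T ∈ P, vs T ∈ Js := by
    intro T hT
    rw [hP, Finset.mem_filter, Finset.mem_powerset] at hT
    rw [hJs, Finset.mem_filter, Finset.mem_powerset]
    exact ⟨Vsa_vs_ed hT.1, hT.2⟩
  have h2 : ∑ T ∈ P, ∏ e ∈ T, |phi q (ψ e)| ≤ ∑ J ∈ Js, ∑ T ∈ (ed J).powerset, ∏ e ∈ T, |phi q (ψ e)| := by
    rw [← Finset.sum_fiberwise_of_maps_to hmap]
    refine Finset.sum_le_sum fun J _ => ?_
    refine Finset.sum_le_sum_of_subset_of_nonneg ?_ fun T _ _ => Finset.prod_nonneg fun e _ => abs_nonneg _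
    intro T hT
    rw [Finset.mem_filter, hP, Finset.mem_filter, Finset.mem_powerset] at hT
    rw [Finset.mem_powerset, ← hT.2]
    exact Vsa_ed_vs hT.1.1
  have h3 : ∀ J ∈ Js, ∑ T ∈ (ed J).powerset, ∏ e ∈ T, |phi q (ψ e)| ≤ (q : ℝ) ^ (m.choose 2) := by
    intro J hJ
    rw [hJs, Finset.mem_filter] at hJ
    rw [← Finset.prod_one_add]
    calc ∏ e ∈ ed J, (1 + |phi q (ψ e)|) ≤ ∏ e ∈ ed J, (q : ℝ) := by
          refine Finset.prod_le_prod (fun e _ => ?_) fun e _ => Dnk_phi hq _
          have := abs_nonneg (phi q (ψ e))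
          linarith
      _ = (q : ℝ) ^ (ed J).card := by rw [Finset.prod_const]
      _ ≤ (q : ℝ) ^ (m.choose 2) := by
          refine pow_le_pow_right₀ hq1 ?_
          rw [Vsa_card]
          exact Nat.choose_le_choose 2 hJ.2
  have h4 : (Js.card : ℝ) ≤ ((U.card + 1 : ℕ) : ℝ) ^ m := by
    have h5 : Js.card ≤ (U.card + 1) ^ m := by
      rw [hJs]
      exact Dnk_card m U
    exact_mod_cast h5
  have h6 := (h1.trans h2).trans (Finset.sum_le_card_nsmul Js _ _ h3)
  rw [nsmul_eq_mul] at h6
  exact h6.trans (mul_le_mul_of_nonneg_right h4 (by positivity))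

end Pool.Agent.H9.SE
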