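import Pool.Agent.H9.SD.Efb

/-!
Module Ger.  A large set of `ψ` looks uniform for most `F`.
-/

set_option autoImplicit false
set_option linter.unusedSectionVars false

open Finset

namespace Pool.Agent.H9.SE

open Pool.Agent.H9.SD

variable {ι A : Type} [Fintype ι] [DecidableEq ι] [Fintype A] [DecidableEq A] [Nonempty A]

theorem Ger_z (B : Finset ι) (h G : (ι → A) → ℝ) (v : ι) (hv : v ∈ B)
    (hG : ∀ ψ a, G (Function.update ψ v a) = G ψ) : ∑ ψ, es B h ψ * G ψ = 0 := by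
  have h1 := Efb_upd (fun ψ => es B h ψ * G ψ) v
  have h2 : ∑ ψ : ι → A, ∑ a : A, (fun ψ => es B h ψ * G ψ) (Function.update ψ v a) = 0 := by
    refine Finset.sum_eq_zero fun ψ _ => ?_
    simp only [hG]
    rw [← Finset.sum_mul, Efa_zero B h v hv ψ, zero_mul]
  rw [h2] at h1
  have h4 : (Fintype.card A : ℝ) ≠ 0 := by
    exact_mod_cast Fintype.card_ne_zero
  rcases mul_eq_zero.1 h1.symm with h5 | h5
  · exact absurd h5 h4
  · exact h5

theorem Ger_one (h G : (ι → A) → ℝ) (E : Finset ι) (hE : Dep E G) :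
    ∑ ψ : ι → A, h ψ * G ψ - (∑ ψ, h ψ) * ((∑ ψ, G ψ) / (Fintype.card (ι → A) : ℝ)) =
      ∑ ψ : ι → A, (∑ B ∈ (univ : Finset (Finset ι)).filter (fun B => B ⊆ E ∧ B ≠ ∅), es B h ψ) * G ψ := by
  have hΨ : (Fintype.card (ι → A) : ℝ) ≠ 0 := by exact_mod_cast Fintype.card_ne_zero
  obtain ⟨ψ0⟩ : Nonempty (ι → A) := inferInstance
  have hconst : ∀ ψ, es ∅ h ψ = es ∅ h ψ0 := fun ψ =>
    Efa_dep ∅ h ψ ψ0 fun v hv => absurd hv (Finset.notMem_empty v)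
  have hsum : ∑ ψ, h ψ = (Fintype.card (ι → A) : ℝ) * es ∅ h ψ0 := by
    have h1 : ∑ ψ, h ψ = ∑ B : Finset ι, ∑ ψ, es B h ψ := by
      rw [Finset.sum_comm]
      exact Finset.sum_congr rfl fun ψ _ => (Efa_sum h ψ).symm
    rw [h1, Finset.sum_eq_single ∅]
    · rw [Finset.sum_congr rfl fun ψ _ => hconst ψ, Finset.sum_const, nsmul_eq_mul, card_univ]
    · intro B _ hB
      obtain ⟨v, hv⟩ := Finset.nonempty_iff_ne_empty.2 hB
      have h2 := Ger_z B h (fun _ => 1) v hv (fun _ _ => rfl)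
      simpa using h2
    · intro hn
      exact absurd (mem_univ _) hn
  have hall : ∑ ψ : ι → A, h ψ * G ψ = ∑ B : Finset ι, ∑ ψ, es B h ψ * G ψ := by
    rw [Finset.sum_comm]
    refine Finset.sum_congr rfl fun ψ _ => ?_
    rw [← Finset.sum_mul, Efa_sum]
  have hnot : ∀ B : Finset ι, ¬ B ⊆ E → ∑ ψ, es B h ψ * G ψ = 0 := by
    intro B hB
    obtain ⟨v, hv, hv'⟩ := Finset.not_subset.1 hB
    refine Ger_z B h G v hv fun ψ a => ?_
    refine hE _ _ fun u hu => ?_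
    refine Function.update_of_ne ?_ _ _
    rintro rfl
    exact hv' hu
  have hemp : ∑ ψ : ι → A, es ∅ h ψ * G ψ = (∑ ψ, h ψ) * ((∑ ψ, G ψ) / (Fintype.card (ι → A) : ℝ)) := by
    rw [Finset.sum_congr rfl fun ψ _ => by rw [hconst ψ], ← Finset.mul_sum, hsum]
    field_simp
  have hsplit : ∑ B : Finset ι, ∑ ψ, es B h ψ * G ψ = ∑ ψ : ι → A, es ∅ h ψ * G ψ +
      ∑ B ∈ (univ : Finset (Finset ι)).filter (fun B => B ⊆ E ∧ B ≠ ∅), ∑ ψ, es B h ψ * G ψ := by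
    rw [← Finset.add_sum_erase univ _ (mem_univ (∅ : Finset ι))]
    congr 1
    symm
    refine Finset.sum_subset ?_ ?_
    · intro B hB
      rw [Finset.mem_filter] at hB
      rw [Finset.mem_erase]
      exact ⟨hB.2.2, mem_univ _⟩
    · intro B hB hB'
      rw [Finset.mem_erase] at hB
      refine hnot B fun hs => hB' ?_
      rw [Finset.mem_filter]
      exact ⟨mem_univ _, hs, hB.1⟩
  rw [hall, hsplit, hemp, add_sub_cancel_left, Finset.sum_comm]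
  refine Finset.sum_congr rfl fun ψ _ => ?_
  rw [Finset.sum_mul]

open Classical in
theorem Ger_main {Φ : Type} [Fintype Φ] (E : Φ → Finset ι) (ε : ℝ) (hε : 0 ≤ ε)
    (hE : ∀ B : Finset ι, B ≠ ∅ → ((univ.filter (fun F => B ⊆ E F)).card : ℝ) ≤ ε * Fintype.card Φ)
    (h : (ι → A) → ℝ) (g : Φ → (ι → A) → ℝ) (hg : ∀ F, Dep (E F) (g F)) (G : ℝ) (hG : ∀ F ψ, |g F ψ| ≤ G)
    (hG0 : 0 ≤ G) :
    (∑ F : Φ, |∑ ψ : ι → A, h ψ * g F ψ - (∑ ψ, h ψ) * ((∑ ψ, g F ψ) / (Fintype.card (ι → A) : ℝ))|) ^ 2 ≤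
    G ^ 2 * (Fintype.card Φ : ℝ) ^ 2 * (Fintype.card (ι → A) : ℝ) * ε * ∑ ψ, h ψ ^ 2 := by
  obtain ⟨S, hS⟩ : ∃ S : Φ → Finset (Finset ι), S = fun F =>
    (univ : Finset (Finset ι)).filter (fun B => B ⊆ E F ∧ B ≠ ∅) := ⟨_, rfl⟩
  have hD : ∀ F : Φ, |∑ ψ : ι → A, h ψ * g F ψ -
      (∑ ψ, h ψ) * ((∑ ψ, g F ψ) / (Fintype.card (ι → A) : ℝ))| ^ 2 ≤
      G ^ 2 * (Fintype.card (ι → A) : ℝ) * ∑ B ∈ S F, ∑ ψ, es B h ψ ^ 2 := by
    intro F
    rw [Ger_one h (g F) (E F) (hg F), ← Efb_sq]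
    have e1 : (univ : Finset (Finset ι)).filter (fun B => B ⊆ E F ∧ B ≠ ∅) = S F := by rw [hS]
    rw [e1]
    have e2 : |∑ ψ : ι → A, (∑ B ∈ S F, es B h ψ) * g F ψ| ≤ G * ∑ ψ, |∑ B ∈ S F, es B h ψ| := by
      rw [Finset.mul_sum]
      refine (Finset.abs_sum_le_sum_abs _ _).trans (Finset.sum_le_sum fun ψ _ => ?_)
      rw [abs_mul, mul_comm]
      exact mul_le_mul_of_nonneg_right (hG F _) (abs_nonneg _)
    have e3 : (∑ ψ : ι → A, |∑ B ∈ S F, es B h ψ|) ^ 2 ≤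
        (Fintype.card (ι → A) : ℝ) * ∑ ψ, (∑ B ∈ S F, es B h ψ) ^ 2 := by
      have e4 := sq_sum_le_card_mul_sum_sq (s := (univ : Finset (ι → A)))
        (f := fun ψ => |∑ B ∈ S F, es B h ψ|)
      simp only [sq_abs, card_univ] at e4
      exact e4
    calc |∑ ψ : ι → A, (∑ B ∈ S F, es B h ψ) * g F ψ| ^ 2
        ≤ (G * ∑ ψ, |∑ B ∈ S F, es B h ψ|) ^ 2 := pow_le_pow_left₀ (abs_nonneg _) e2 2
      _ = G ^ 2 * (∑ ψ, |∑ B ∈ S F, es B h ψ|) ^ 2 := by ring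
      _ ≤ G ^ 2 * ((Fintype.card (ι → A) : ℝ) * ∑ ψ, (∑ B ∈ S F, es B h ψ) ^ 2) :=
          mul_le_mul_of_nonneg_left e3 (sq_nonneg _)
      _ = _ := by ring
  have hE' : ∑ F : Φ, ∑ B ∈ S F, ∑ ψ, es B h ψ ^ 2 ≤
      ε * (Fintype.card Φ : ℝ) * ∑ ψ, h ψ ^ 2 := by
    rw [Efb_norm h, Finset.mul_sum, hS]
    simp only [Finset.sum_filter]
    rw [Finset.sum_comm]
    refine Finset.sum_le_sum fun B _ => ?_
    have hn : 0 ≤ ∑ ψ, es B h ψ ^ 2 := Finset.sum_nonneg fun ψ _ => sq_nonneg _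
    rw [← Finset.sum_filter, Finset.sum_const, nsmul_eq_mul]
    refine mul_le_mul_of_nonneg_right ?_ hn
    by_cases hB : B = ∅
    · have h0 : (univ : Finset Φ).filter (fun F => B ⊆ E F ∧ B ≠ ∅) = ∅ := by
        rw [Finset.filter_eq_empty_iff]
        intro F _ hF
        exact hF.2 hB
      rw [h0]
      simp only [card_empty, Nat.cast_zero]
      positivity
    · refine le_trans ?_ (hE B hB)
      have h1 : ((univ : Finset Φ).filter (fun F => B ⊆ E F ∧ B ≠ ∅)).card ≤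
          (univ.filter (fun F : Φ => B ⊆ E F)).card := by
        refine Finset.card_le_card fun F hF => ?_
        rw [Finset.mem_filter] at hF ⊢
        exact ⟨hF.1, hF.2.1⟩
      exact_mod_cast h1
  have hCS := sq_sum_le_card_mul_sum_sq (s := (univ : Finset Φ))
    (f := fun F => |∑ ψ : ι → A, h ψ * g F ψ -
      (∑ ψ, h ψ) * ((∑ ψ, g F ψ) / (Fintype.card (ι → A) : ℝ))|)
  refine hCS.trans ?_
  rw [card_univ]
  have h5 : ∑ F : Φ, |∑ ψ : ι → A, h ψ * g F ψ -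
      (∑ ψ, h ψ) * ((∑ ψ, g F ψ) / (Fintype.card (ι → A) : ℝ))| ^ 2 ≤
      G ^ 2 * (Fintype.card (ι → A) : ℝ) *
        (ε * (Fintype.card Φ : ℝ) * ∑ ψ, h ψ ^ 2) := by
    refine (Finset.sum_le_sum fun F _ => hD F).trans ?_
    rw [← Finset.mul_sum]
    exact mul_le_mul_of_nonneg_left hE' (by positivity)
  calc _ ≤ (Fintype.card Φ : ℝ) * (G ^ 2 * (Fintype.card (ι → A) : ℝ) *
        (ε * (Fintype.card Φ : ℝ) * ∑ ψ, h ψ ^ 2)) :=
        mul_le_mul_of_nonneg_left h5 (Nat.cast_nonneg _)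
    _ = _ := by ring

end Pool.Agent.H9.SE
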