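import Pool.Agent.H9.SE.Gen
import Pool.Agent.H9.SE.Ger
import Pool.Agent.H9.SD.Gib
import Pool.Agent.H9.SD.Nrm
import Pool.Agent.H9.SD.Abs

/-!
Module Gab.  The abstract lower bound, average-case form, for general variables.
-/

set_option autoImplicit false
set_option linter.unusedSectionVars false

open Finset

namespace Pool.Agent.H9.SE

open Pool.Agent.H9.SD

open Classical in
theorem Gab_main {ι A Φ : Type} [Fintype ι] [DecidableEq ι] [Fintype A] [DecidableEq A] [Nonempty A] [Fintype Φ]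
    [Nonempty Φ] {R d : ℕ} (hR : 1 ≤ R) (D f : Φ → (ι → A) → ℝ) (p : Φ → Finset ι → Prop) (V : Finset ι → Prop)
    (E : Φ → Finset ι) (L K0 ρ η δ₀ δ ε : ℝ) (hL1 : 1 ≤ L) (hL : ∀ F ψ, |D F ψ| ≤ L)
    (hD : ∀ (F : Φ) (h : (ι → A) → ℝ), 0 ≤ ∑ ψ, D F ψ * lop (p F) h ψ ^ 2) (hK0 : 0 ≤ K0)
    (hf : ∀ F ψ, |f F ψ| ≤ K0) (hρ : 0 < ρ)
    (hval : ∀ F, ∑ ψ, D F ψ * f F ψ = -ρ * (Fintype.card (ι → A) : ℝ))
    (hDE : ∀ F, Dep (E F) (fun ψ => D F ψ * f F ψ))
    (hε : 0 ≤ ε) (hEε : ∀ B : Finset ι, B ≠ ∅ → ((univ.filter (fun F => B ⊆ E F)).card : ℝ) ≤ ε * Fintype.card Φ)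
    (P : (ι → A) → Matrix (Fin R) (Fin R) ℝ) (Q : Φ → Matrix (Fin R) (Fin R) ℝ)
    (hP : ∀ ψ, (P ψ).PosSemidef) (hQ : ∀ F, (Q F).PosSemidef)
    (Z : Finset (ι → A)) (hC : 64 * (L * K0) ^ 2 * ε / ρ ^ 2 ≤ δ₀) (hδ₀ : 0 < δ₀)
    (hZ : δ₀ * (Fintype.card (ι → A) : ℝ) ≤ Z.card)
    (hPQ : ∀ ψ ∈ Z, ∀ F : Φ, (P ψ * Q F).trace = f F ψ) (hPZ : ∀ ψ, ψ ∉ Z → P ψ = 0)
    (hδ0 : 0 ≤ δ) (hδ : ∀ B : Finset ι, V B → ((univ.filter (fun F => ¬ p F B)).card : ℝ) ≤ δ * Fintype.card Φ)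
    (hvan : ∀ X : (ι → A) → Matrix (Fin R) (Fin R) ℝ,
      (∀ a b, ∃ (c0 : ℝ) (c : Φ → ℝ), ∀ ψ, X ψ a b = c0 + ∑ F, c F * D F ψ) →
      ∀ a b B, ¬ V B → ∀ ψ, es B (fun ψ => (X ψ ^ d) a b) ψ = 0)
    (hη : 0 < η)
    (h1 : (K0 + 1) * R * (L + ρ / (8 * (K0 + 1))) ^ (2 * d + 1) <
      (L + 2 * (ρ / (8 * (K0 + 1)))) ^ (2 * d) * (ρ / 8 * δ₀))
    (h2 : L * (η + (1 + 1 / η) * (2 * R * δ)) < ρ / (8 * (K0 + 1))) : False := by
  classical
  obtain ⟨P1, Q', hP1, hQ', hPQ1, hK1, hQ1⟩ := Nrm_main P Q hP hQ K0 (fun ψ F => by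
    by_cases hψ : ψ ∈ Z
    · rw [hPQ ψ hψ]
      exact (le_abs_self _).trans (hf F ψ)
    · rw [hPZ ψ hψ, Matrix.zero_mul, Matrix.trace_zero]
      exact hK0)
  set P' : (ι → A) → Matrix (Fin R) (Fin R) ℝ := fun ψ => if ψ ∈ Z then P1 ψ else 0 with hP'def
  have hP' : ∀ ψ, (P' ψ).PosSemidef := by
    intro ψ
    show (if ψ ∈ Z then P1 ψ else 0).PosSemidef
    split_ifs
    · exact hP1 ψ
    · exact Matrix.PosSemidef.zero
  have hK' : ∀ ψ, (P' ψ).trace ≤ K0 + 1 := by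
    intro ψ
    show (if ψ ∈ Z then P1 ψ else 0).trace ≤ K0 + 1
    split_ifs
    · exact hK1 ψ
    · rw [Matrix.trace_zero]
      linarith
  have hPQ' : ∀ ψ F, (P' ψ * Q' F).trace = if ψ ∈ Z then f F ψ else 0 := by
    intro ψ F
    show ((if ψ ∈ Z then P1 ψ else 0) * Q' F).trace = _
    split_ifs with hψ
    · rw [hPQ1, hPQ ψ hψ]
    · rw [Matrix.zero_mul, Matrix.trace_zero]
  set c : ℝ := (Fintype.card Φ : ℝ) with hc
  have hc0 : 0 < Fintype.card Φ := Fintype.card_pos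
  have hcpos : 0 < c := by
    rw [hc]
    exact_mod_cast hc0
  set S : Finset Φ := univ.filter (fun F => (Q' F).trace ≤ 2 * R) with hS
  have hR0 : (0 : ℝ) < R := by exact_mod_cast (by omega : 0 < R)
  have hL0 : 0 ≤ L := by linarith
  -- many good `F`
  have hScard : c / 2 ≤ S.card := by
    have h3 : 0 ≤ ((1 : Matrix (Fin R) (Fin R) ℝ) - (1 / c) • ∑ F, Q' F).trace := hQ1.trace_nonneg
    rw [Matrix.trace_sub, Matrix.trace_one, Fintype.card_fin, Matrix.trace_smul, Matrix.trace_sum, smul_eq_mul] at h3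
    have h4 : ∑ F, (Q' F).trace ≤ c * R := by
      have h5 : (1 / c) * ∑ F, (Q' F).trace ≤ R := by linarith
      rw [one_div, inv_mul_le_iff₀ hcpos] at h5
      exact h5
    have h5 : (2 * (R : ℝ)) * ((univ \ S).card : ℝ) ≤ ∑ F, (Q' F).trace := by
      calc (2 * (R : ℝ)) * ((univ \ S).card : ℝ) = ∑ F ∈ univ \ S, (2 * (R : ℝ)) := by
            rw [Finset.sum_const, nsmul_eq_mul]
            ring
        _ ≤ ∑ F ∈ univ \ S, (Q' F).trace := by
            refine Finset.sum_le_sum fun F hF => ?_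
            rw [mem_sdiff, hS, mem_filter] at hF
            by_contra h6
            push Not at h6
            exact hF.2 ⟨mem_univ _, h6.le⟩
        _ ≤ ∑ F, (Q' F).trace :=
            Finset.sum_le_sum_of_subset_of_nonneg (subset_univ _) (fun F _ _ => (hQ' F).trace_nonneg)
    have h6 : ((univ \ S).card : ℝ) + S.card = c := by
      rw [hc, ← Finset.card_univ]
      exact_mod_cast Finset.card_sdiff_add_card_eq_card (subset_univ S)
    nlinarith
  set ρ' : ℝ := ρ / (8 * (K0 + 1)) with hρ'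
  have hρ'0 : 0 < ρ' := by positivity
  set Λ : (ι → A) → Matrix (Fin R) (Fin R) ℝ := fun ψ => (1 / c) • ∑ F ∈ S, D F ψ • Q' F with hΛ
  set X : (ι → A) → Matrix (Fin R) (Fin R) ℝ := fun ψ => L • (1 : Matrix (Fin R) (Fin R) ℝ) - Λ ψ with hX
  have hXpsd : ∀ ψ, (X ψ).PosSemidef := by
    intro ψ
    have h3 : X ψ = L • ((1 : Matrix (Fin R) (Fin R) ℝ) - (1 / c) • ∑ F, Q' F) +
        (1 / c) • ∑ F, (L - if F ∈ S then D F ψ else 0) • Q' F := by
      have h4 : ∑ F, (L - if F ∈ S then D F ψ else 0) • Q' F = L • ∑ F, Q' F - ∑ F ∈ S, D F ψ • Q' F := by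
        rw [Finset.smul_sum, ← Finset.sum_filter_add_sum_filter_not univ (fun F => F ∈ S)
          (fun F => (L - if F ∈ S then D F ψ else 0) • Q' F)]
        rw [← Finset.sum_filter_add_sum_filter_not univ (fun F => F ∈ S) (fun F => L • Q' F)]
        have h5 : (univ : Finset Φ).filter (fun F => F ∈ S) = S := by
          ext F
          simp
        rw [h5]
        have h6 : ∑ F ∈ S, (L - if F ∈ S then D F ψ else 0) • Q' F =
            ∑ F ∈ S, L • Q' F - ∑ F ∈ S, D F ψ • Q' F := by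
          rw [← Finset.sum_sub_distrib]
          refine Finset.sum_congr rfl fun F hF => ?_
          rw [if_pos hF, sub_smul]
        have h7 : ∑ F ∈ (univ : Finset Φ).filter (fun F => ¬ F ∈ S),
            (L - if F ∈ S then D F ψ else 0) • Q' F =
            ∑ F ∈ (univ : Finset Φ).filter (fun F => ¬ F ∈ S), L • Q' F := by
          refine Finset.sum_congr rfl fun F hF => ?_
          rw [if_neg (mem_filter.1 hF).2, sub_zero]
        rw [h6, h7]
        abel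
      rw [h4]
      show L • (1 : Matrix (Fin R) (Fin R) ℝ) - (1 / c) • ∑ F ∈ S, D F ψ • Q' F = _
      rw [smul_sub, smul_sub, smul_smul, smul_smul, mul_comm L (1 / c)]
      abel
    rw [h3]
    refine (hQ1.smul hL0).add ((Abs_psd_sum _ _ ?_).smul (by positivity))
    intro F _
    refine (hQ' F).smul ?_
    have h4 := abs_le.1 (hL F ψ)
    split_ifs
    · linarith [h4.2]
    · linarith
  have hΨ : (0 : ℝ) < Fintype.card (ι → A) := by
    exact_mod_cast Fintype.card_pos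
  have hΛP : ∑ ψ, (Λ ψ * P' ψ).trace ≤ -(3 * ρ / 8) * Z.card := by
    have h3 : ∀ ψ, (Λ ψ * P' ψ).trace = (1 / c) * ∑ F ∈ S, (if ψ ∈ Z then (1 : ℝ) else 0) * (D F ψ * f F ψ) := by
      intro ψ
      show (((1 / c) • ∑ F ∈ S, D F ψ • Q' F) * P' ψ).trace = _
      rw [Matrix.smul_mul, Matrix.trace_smul, smul_eq_mul, Matrix.sum_mul, Matrix.trace_sum]
      congr 1
      refine Finset.sum_congr rfl fun F _ => ?_
      rw [Matrix.smul_mul, Matrix.trace_smul, smul_eq_mul, Matrix.trace_mul_comm, hPQ']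
      split_ifs <;> ring
    rw [Finset.sum_congr rfl fun ψ _ => h3 ψ, ← Finset.mul_sum, Finset.sum_comm]
    have hG : ∀ F ψ, |D F ψ * f F ψ| ≤ L * K0 := by
      intro F ψ
      rw [abs_mul]
      exact mul_le_mul (hL F ψ) (hf F ψ) (abs_nonneg _) hL0
    have herr := Ger_main E ε hε hEε (fun ψ : ι → A => if ψ ∈ Z then (1 : ℝ) else 0) (fun F ψ => D F ψ * f F ψ) hDE
      (L * K0) hG (by positivity)
    have hs1 : ∑ ψ : ι → A, (if ψ ∈ Z then (1 : ℝ) else 0) = Z.card := by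
      rw [Finset.sum_ite_mem, univ_inter, Finset.sum_const, nsmul_eq_mul, mul_one]
    have hs2 : ∑ ψ : ι → A, (if ψ ∈ Z then (1 : ℝ) else 0) ^ 2 = Z.card := by
      rw [← hs1]
      refine Finset.sum_congr rfl fun ψ _ => ?_
      split_ifs <;> norm_num
    have havg : ∀ F, (∑ ψ, D F ψ * f F ψ) / (Fintype.card (ι → A) : ℝ) = -ρ := by
      intro F
      rw [hval F, mul_div_assoc, div_self hΨ.ne', mul_one]
    simp only [havg] at herr
    rw [hs1, hs2] at herr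
    set W : ℝ := ∑ F : Φ, |∑ ψ : ι → A, (if ψ ∈ Z then (1 : ℝ) else 0) * (D F ψ * f F ψ) -
      (Z.card : ℝ) * -ρ| with hW
    have hWb : W ≤ c * (ρ / 8) * Z.card := by
      have h4 : W ^ 2 ≤ (c * (ρ / 8) * Z.card) ^ 2 := by
        refine herr.trans ?_
        have h5 : (L * K0) ^ 2 * (Fintype.card (ι → A) : ℝ) * ε ≤ (ρ / 8) ^ 2 * Z.card := by
          have h6 : (64 * (L * K0) ^ 2 * ε / ρ ^ 2) * (Fintype.card (ι → A) : ℝ) ≤ Z.card := by
            refine le_trans ?_ hZ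
            exact mul_le_mul_of_nonneg_right hC hΨ.le
          calc (L * K0) ^ 2 * (Fintype.card (ι → A) : ℝ) * ε =
                (ρ / 8) ^ 2 * ((64 * (L * K0) ^ 2 * ε / ρ ^ 2) * (Fintype.card (ι → A) : ℝ)) := by
                field_simp
                ring
            _ ≤ (ρ / 8) ^ 2 * Z.card := mul_le_mul_of_nonneg_left h6 (by positivity)
        calc (L * K0) ^ 2 * (Fintype.card Φ : ℝ) ^ 2 * (Fintype.card (ι → A) : ℝ) * ε *
              (Z.card : ℝ) = c ^ 2 * Z.card * ((L * K0) ^ 2 * (Fintype.card (ι → A) : ℝ) * ε) := by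
              rw [hc]
              ring
          _ ≤ c ^ 2 * Z.card * ((ρ / 8) ^ 2 * Z.card) := mul_le_mul_of_nonneg_left h5 (by positivity)
          _ = (c * (ρ / 8) * Z.card) ^ 2 := by ring
      exact le_of_sq_le_sq h4 (by positivity)
    have h4 : ∑ F ∈ S, ∑ ψ : ι → A, (if ψ ∈ Z then (1 : ℝ) else 0) * (D F ψ * f F ψ) ≤
        S.card * ((Z.card : ℝ) * -ρ) + W := by
      have h5 : ∑ F ∈ S, (∑ ψ : ι → A, (if ψ ∈ Z then (1 : ℝ) else 0) * (D F ψ * f F ψ) -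
          (Z.card : ℝ) * -ρ) ≤ W := by
        calc ∑ F ∈ S, (∑ ψ : ι → A, (if ψ ∈ Z then (1 : ℝ) else 0) * (D F ψ * f F ψ) -
              (Z.card : ℝ) * -ρ) ≤
              ∑ F ∈ S, |∑ ψ : ι → A, (if ψ ∈ Z then (1 : ℝ) else 0) * (D F ψ * f F ψ) -
              (Z.card : ℝ) * -ρ| := Finset.sum_le_sum fun F _ => le_abs_self _
          _ ≤ W := Finset.sum_le_sum_of_subset_of_nonneg (subset_univ _) (fun F _ _ => abs_nonneg _)
      rw [Finset.sum_sub_distrib, Finset.sum_const, nsmul_eq_mul] at h5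
      linarith
    have h5 : 1 / 2 ≤ (1 / c) * S.card := by
      rw [one_div_mul_eq_div, le_div_iff₀ hcpos]
      linarith
    have h6 : (1 / c) * W ≤ ρ / 8 * Z.card := by
      rw [one_div, inv_mul_le_iff₀ hcpos]
      linarith
    have h7 : (0 : ℝ) ≤ ρ * Z.card := by positivity
    calc (1 / c) * ∑ F ∈ S, ∑ ψ : ι → A, (if ψ ∈ Z then (1 : ℝ) else 0) * (D F ψ * f F ψ) ≤
          (1 / c) * (S.card * ((Z.card : ℝ) * -ρ) + W) := mul_le_mul_of_nonneg_left h4 (by positivity)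
      _ = -((1 / c) * S.card * (ρ * Z.card)) + (1 / c) * W := by ring
      _ ≤ -(1 / 2 * (ρ * Z.card)) + ρ / 8 * Z.card := by
          have := mul_le_mul_of_nonneg_right h5 h7
          linarith
      _ = -(3 * ρ / 8) * Z.card := by ring
  have hsum := Gib_main X P' hXpsd hP' (K0 + 1) (by linarith) hK' (L + ρ') (L + 2 * ρ') (ρ / 8 * δ₀) (by linarith)
    (by linarith) (by
      have h3 : ∀ ψ, ((X ψ - (L + 2 * ρ') • (1 : Matrix (Fin R) (Fin R) ℝ)) * P' ψ).trace =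
          -(2 * ρ') * (P' ψ).trace - (Λ ψ * P' ψ).trace := by
        intro ψ
        have h4 : X ψ - (L + 2 * ρ') • (1 : Matrix (Fin R) (Fin R) ℝ) =
            (-(2 * ρ')) • (1 : Matrix (Fin R) (Fin R) ℝ) - Λ ψ := by
          show L • (1 : Matrix (Fin R) (Fin R) ℝ) - Λ ψ - (L + 2 * ρ') • (1 : Matrix (Fin R) (Fin R) ℝ) = _
          rw [add_smul, neg_smul]
          abel
        rw [h4, sub_mul, Matrix.smul_mul, one_mul, Matrix.trace_sub, Matrix.trace_smul, smul_eq_mul]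
      rw [Finset.sum_congr rfl fun ψ _ => h3 ψ, Finset.sum_sub_distrib, ← Finset.mul_sum]
      have h5 : ∑ ψ, (P' ψ).trace ≤ Z.card * (K0 + 1) := by
        have h7 : ∑ ψ, (P' ψ).trace = ∑ ψ ∈ Z, (P' ψ).trace := by
          symm
          refine Finset.sum_subset (subset_univ Z) fun ψ _ hψ => ?_
          show (if ψ ∈ Z then P1 ψ else 0).trace = 0
          rw [if_neg hψ, Matrix.trace_zero]
        rw [h7]
        have := Finset.sum_le_card_nsmul Z (fun ψ => (P' ψ).trace) (K0 + 1) (fun ψ _ => hK' ψ)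
        rw [nsmul_eq_mul] at this
        exact this
      have h6 : 2 * ρ' * ∑ ψ, (P' ψ).trace ≤ ρ / 4 * Z.card := by
        calc 2 * ρ' * ∑ ψ, (P' ψ).trace ≤ 2 * ρ' * (Z.card * (K0 + 1)) :=
              mul_le_mul_of_nonneg_left h5 (by positivity)
          _ = ρ / 4 * Z.card := by
              rw [hρ']
              field_simp
              ring
      have h8 : ρ / 8 * δ₀ * Fintype.card (ι → A) ≤ ρ / 8 * Z.card := by
        rw [mul_assoc]
        exact mul_le_mul_of_nonneg_left hZ (by positivity)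
      linarith) (2 * d) h1
  -- low degree
  have hXT : ∀ ψ, (X ψ).transpose = X ψ := fun ψ => by
    have h3 := (hXpsd ψ).isHermitian
    rw [Matrix.IsHermitian, Matrix.conjTranspose_eq_transpose_of_trivial] at h3
    exact h3
  have hTT : ∀ ψ, (X ψ ^ d).transpose = X ψ ^ d := fun ψ => by
    rw [Matrix.transpose_pow, hXT]
  have hXlin : ∀ a b, ∃ (c0 : ℝ) (c' : Φ → ℝ), ∀ ψ, X ψ a b = c0 + ∑ F, c' F * D F ψ := by
    intro a b
    refine ⟨L * (1 : Matrix (Fin R) (Fin R) ℝ) a b, fun F => if F ∈ S then -((1 / c) * Q' F a b) else 0, fun ψ => ?_⟩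
    show (L • (1 : Matrix (Fin R) (Fin R) ℝ) - (1 / c) • ∑ F ∈ S, D F ψ • Q' F) a b = _
    rw [Matrix.sub_apply, Matrix.smul_apply, Matrix.smul_apply, Matrix.sum_apply, smul_eq_mul, smul_eq_mul,
      sub_eq_add_neg, Finset.mul_sum, ← Finset.sum_neg_distrib]
    congr 1
    simp only [ite_mul, zero_mul]
    rw [Finset.sum_ite_mem, univ_inter]
    refine Finset.sum_congr rfl fun F _ => ?_
    rw [Matrix.smul_apply, smul_eq_mul]
    ring
  have hlow := Gen_sum p V D L hL0 hL hD hc0 Q' hQ' hQ1 S (2 * R) (by positivity)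
    (fun F hF => (mem_filter.1 hF).2) (fun ψ => X ψ ^ d) hTT (hvan X hXlin) η hη δ hδ0 hδ
  -- conclusion
  have hTsq : ∀ ψ, X ψ ^ d * X ψ ^ d = X ψ ^ (2 * d) := fun ψ => by rw [← pow_add, two_mul]
  have hrew : ∀ ψ, (X ψ ^ (2 * d) * (X ψ - (L + ρ') • (1 : Matrix (Fin R) (Fin R) ℝ))).trace =
      -(Λ ψ * (X ψ ^ d * X ψ ^ d)).trace - ρ' * (X ψ ^ d * X ψ ^ d).trace := by
    intro ψ
    have h4 : X ψ - (L + ρ') • (1 : Matrix (Fin R) (Fin R) ℝ) = -Λ ψ - ρ' • (1 : Matrix (Fin R) (Fin R) ℝ) := by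
      show L • (1 : Matrix (Fin R) (Fin R) ℝ) - Λ ψ - (L + ρ') • (1 : Matrix (Fin R) (Fin R) ℝ) = _
      rw [add_smul]
      abel
    have h5 : ∀ Y Z : Matrix (Fin R) (Fin R) ℝ, (Z * (-Y - ρ' • (1 : Matrix (Fin R) (Fin R) ℝ))).trace =
        -(Y * Z).trace - ρ' * Z.trace := by
      intro Y Z
      rw [mul_sub, Matrix.trace_sub, mul_neg, Matrix.trace_neg, Matrix.mul_smul, Matrix.trace_smul, mul_one,
        smul_eq_mul, Matrix.trace_mul_comm Z Y]
    rw [h4, hTsq, h5]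
  rw [Finset.sum_congr rfl fun ψ _ => hrew ψ, Finset.sum_sub_distrib, Finset.sum_neg_distrib, ← Finset.mul_sum] at hsum
  have ht : 0 ≤ ∑ ψ, (X ψ ^ d * X ψ ^ d).trace := by
    refine Finset.sum_nonneg fun ψ _ => ?_
    have h4 : X ψ ^ d * X ψ ^ d = (X ψ ^ d).conjTranspose * X ψ ^ d := by
      rw [Matrix.conjTranspose_eq_transpose_of_trivial, hTT]
    rw [h4]
    exact (Matrix.posSemidef_conjTranspose_mul_self _).trace_nonneg
  have hlow' : -(L * (η + (1 + 1 / η) * (2 * R * δ)) *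
      ∑ ψ, (X ψ ^ d * X ψ ^ d).trace) ≤ ∑ ψ, (Λ ψ * (X ψ ^ d * X ψ ^ d)).trace := hlow
  nlinarith

end Pool.Agent.H9.SE
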