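import Pool.Agent.H9.SE.Vsa
import Pool.Agent.H9.SD.Hit

/-!
Module Hta.  Few choices of vertices meet a small set often.   Use only the STATEMENTS of Vsa, `Hit_main`.
`Hta_one`: `Hit_main` with the set `vs B` (`¬ a ≤ s ↔ s < a`).
`Hta_two`: take `e ∈ B`; if no `F` has `B ⊆ ed (im F)` the left side is `0`; else `e` is not diagonal, `e = s(u, v)`, `u ≠ v`, and `B ⊆ ed (im F)` implies `1 < ({u, v} ∩ im F).card`; `Hit_main` with `s = 1`, `m = 2`.
-/

set_option autoImplicit false
set_option linter.unusedSectionVars false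

open Finset

namespace Pool.Agent.H9.SE

open Pool.Agent.H9.SD

open Classical in
theorem Hta_one {N k : ℕ} (hk : k ≤ N) (hN : 0 < N) (s m : ℕ) (B : Finset (Sym2 (Fin N))) (hB : (vs B).card ≤ m) :
    ((univ.filter (fun F : Fin k ↪ Fin N => ¬ (vs B ∩ im F).card ≤ s)).card : ℝ) ≤
      ((k.choose (s + 1) : ℝ) * ((m : ℝ) / N) ^ (s + 1)) * Fintype.card (Fin k ↪ Fin N) := by
  have h := Hit_main hk hN s m (vs B) hB
  refine le_trans (le_of_eq ?_) h
  congr 2
  exact Finset.filter_congr (fun F _ => not_le)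

open Classical in
theorem Hta_two {N k : ℕ} (hk : k ≤ N) (hN : 0 < N) (B : Finset (Sym2 (Fin N))) (hB : B ≠ ∅) :
    ((univ.filter (fun F : Fin k ↪ Fin N => B ⊆ ed (im F))).card : ℝ) ≤
      ((k.choose 2 : ℝ) * (2 / (N : ℝ)) ^ 2) * Fintype.card (Fin k ↪ Fin N) := by
  obtain ⟨e, he⟩ := Finset.nonempty_iff_ne_empty.2 hB
  induction e using Sym2.ind with
  | _ u v =>
  by_cases huv : u = v
  · have h0 : (univ.filter (fun F : Fin k ↪ Fin N => B ⊆ ed (im F))) = ∅ := by
      refine Finset.filter_eq_empty_iff.2 fun F _ hF => ?_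
      have h1 := ((Vsa_mem_ed _ _).1 (hF he)).1
      exact h1 (Sym2.mk_isDiag_iff.2 huv)
    rw [h0, Finset.card_empty, Nat.cast_zero]
    positivity
  · have h := Hit_main (k := k) hk hN 1 2 ({u, v} : Finset (Fin N)) Finset.card_le_two
    have hsub : (univ.filter (fun F : Fin k ↪ Fin N => B ⊆ ed (im F))) ⊆
        univ.filter (fun F : Fin k ↪ Fin N => 1 < (({u, v} : Finset (Fin N)) ∩ im F).card) := by
      intro F hF
      rw [Finset.mem_filter] at hF ⊢
      refine ⟨hF.1, ?_⟩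
      have h1 := ((Vsa_mem_ed _ _).1 (hF.2 he)).2
      have hu : u ∈ im F := h1 u (Sym2.mem_mk_left u v)
      have hv : v ∈ im F := h1 v (Sym2.mem_mk_right u v)
      refine Finset.one_lt_card.2 ⟨u, ?_, v, ?_, huv⟩
      · exact Finset.mem_inter.2 ⟨Finset.mem_insert_self _ _, hu⟩
      · exact Finset.mem_inter.2 ⟨Finset.mem_insert_of_mem (Finset.mem_singleton_self _), hv⟩
    refine (Nat.cast_le.2 (Finset.card_le_card hsub)).trans (h.trans (le_of_eq ?_))
    norm_num

end Pool.Agent.H9.SE
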