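import Mathlib

/-!
Module Nmw.  The numbers for the uniform bound.  `L = (k + 1) ^ (2 s) * q ^ ((2 s).choose 2)`, `K = k ^ 2 + 1`, `T = k ^ 2 + 2 = K + 1`, `r = 1 / (8 T)`, `Γ = 224 * s * T * L * k ^ 2`.
`Nmw_gamma`: with `2 s ≤ k`, `2 ≤ k`: `s ≤ k`, `T ≤ 2 k ^ 2`, `k + 1 ≤ k ^ 2`, `(2 s).choose 2 ≤ 2 s ^ 2`, `448 ≤ 512 ≤ k ^ 9`, so `Γ ≤ 448 k ^ 5 * k ^ (4 s) * q ^ (2 s ^ 2) ≤ k ^ (14 + 4 s) q ^ (2 s ^ 2)`; `14 + 4 s ≤ 18 s`, so `Γ ^ 8 ≤ k ^ (144 s) q ^ (16 s ^ 2) ≤ N`.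
`Nmw_log`: `log x ≤ 8 x ^ (1/8)`: `Real.log_le_sub_one_of_pos` for `y = x ^ (1/8)` (`Real.rpow_natCast`, `Real.log_rpow`); stated with a real `y ≥ 1`, `y ^ 8 = N`.
Let `y = N ^ (1/8)` (real, `y ≥ 1`, `y ^ 8 = N`), so `Γ ≤ y` (`Γ ^ 8 ≤ N`).
(a) `64 (L K)^2 * (k.choose 2 * (2 / N)^2) / 1 ^ 2 ≤ 128 (L T k)^2 / N ^ 2 ≤ Γ ^ 2 / N ^ 2 ≤ y ^ 2 / y ^ 16 ≤ 1 / y ^ 8 = 1 / N` (`k.choose 2 ≤ k ^ 2 / 2`).
(b) `d = ⌈27 s T L * log N⌉₊ ≤ 28 s T L * 8 y` (if `log N ≥ 1/ 27`-type slack is needed: `27 s T L log N + 1 ≤ 28 s T L * 8 y` holds as `log N ≤ 8 y`, `1 ≤ 8 s T L y`).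
 First inequality (`ρ = 1`): divide by `(L + r) ^ (2 d)`: one needs `8 T R (L + r) N < (1 + x) ^ (2 d)`, `x = r / (L + r) ∈ (0, 1]`; `(1 + x) ^ 2 > exp x` (`log (1 + x) ≥ x / (1 + x)`, or `1 + x ≥ exp (x / 2)` from `Real.exp_bound` / from `exp (x/2) ≤ 1 / (1 - x/2) ≤ 1 + x`),
 so it is enough that `log (8 T R (L + r) N) ≤ d x` and `d x > 0`; `1 / x = 8 T L + 1 ≤ 9 T L`, `8 T R (L + r) N ≤ R * N ^ 2` (`16 T L ≤ Γ ≤ N`), `R ≤ N ^ s`, (from `R ^ 4 ≤ N ^ (3 s)`), so `log ≤ (s + 2) log N ≤ 3 s log N`, `d x ≥ 27 s T L log N / (9 T L) = 3 s log N`.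
 (`N ≥ 2`, as `Γ ≥ 2`.)
(c) Second inequality with `η = r / (4 L)`: `L η = r / 4`, `1 + 1 / η = 1 + 4 L / r ≤ 5 L / r`, so it is enough that `10 L ^ 2 R δ / r ≤ r / 2`, i.e. `1280 T ^ 2 L ^ 2 R δ ≤ 1`, `δ = k.choose (s + 1) * (d k / N) ^ (s + 1) ≤ (d k ^ 2 / N) ^ (s + 1)` (`Nat.choose_le_pow`);
 `d k ^ 2 ≤ 224 s T L k ^ 2 y = Γ y ≤ y ^ 2`, so `δ ≤ (y ^ 2 / y ^ 8) ^ (s + 1) = 1 / y ^ (6 s + 6)`; `1280 T ^ 2 L ^ 2 ≤ Γ ^ 2 ≤ y ^ 2`; `R ≤ y ^ (6 s)` (as `R ^ 4 ≤ N ^ (3 s) = y ^ (24 s)`).  Product `≤ y ^ (2 + 6 s - 6 s - 6) ≤ 1`.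
-/

set_option autoImplicit false
set_option linter.unusedSectionVars false

open Finset

namespace Pool.Agent.H9.SE

theorem Nmw_gamma (k s N q : ℕ) (hs : 1 ≤ s) (hk : 2 * s ≤ k) (hq : 1 ≤ q)
    (hN : k ^ (144 * s) * q ^ (16 * s ^ 2) ≤ N) :
    (224 * s * (k ^ 2 + 2) * ((k + 1) ^ (2 * s) * q ^ ((2 * s).choose 2)) * k ^ 2) ^ 8 ≤ N := by
  have hk2 : 2 ≤ k := by omega
  have hk0 : 0 < k := by omega
  have h1 : (k + 1) ^ (2 * s) ≤ k ^ (4 * s) := by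
    calc (k + 1) ^ (2 * s) ≤ (k ^ 2) ^ (2 * s) := Nat.pow_le_pow_left (by nlinarith) _
      _ = k ^ (4 * s) := by rw [← pow_mul]; congr 1; ring
  have h2 : (2 * s).choose 2 ≤ 2 * s ^ 2 := by
    rw [Nat.choose_two_right]
    have : 2 * s * (2 * s - 1) / 2 ≤ 2 * s * (2 * s) / 2 := Nat.div_le_div_right (Nat.mul_le_mul_left _ (by omega))
    refine this.trans (le_of_eq ?_)
    rw [show 2 * s * (2 * s) = 2 * s ^ 2 * 2 by ring, Nat.mul_div_cancel _ (by norm_num)]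
  have h3 : q ^ ((2 * s).choose 2) ≤ q ^ (2 * s ^ 2) := Nat.pow_le_pow_right hq h2
  have h4 : k ^ 2 + 2 ≤ 2 * k ^ 2 := by nlinarith
  have h5 : 448 ≤ k ^ 9 := by
    calc 448 ≤ 2 ^ 9 := by norm_num
      _ ≤ k ^ 9 := Nat.pow_le_pow_left hk2 9
  have h6 : 224 * s * (k ^ 2 + 2) * ((k + 1) ^ (2 * s) * q ^ ((2 * s).choose 2)) * k ^ 2 ≤
      k ^ (18 * s) * q ^ (2 * s ^ 2) := by
    calc 224 * s * (k ^ 2 + 2) * ((k + 1) ^ (2 * s) * q ^ ((2 * s).choose 2)) * k ^ 2 ≤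
          224 * k * (2 * k ^ 2) * (k ^ (4 * s) * q ^ (2 * s ^ 2)) * k ^ 2 := by
          gcongr
          omega
      _ = 448 * (k ^ (4 * s + 5) * q ^ (2 * s ^ 2)) := by ring
      _ ≤ k ^ 9 * (k ^ (4 * s + 5) * q ^ (2 * s ^ 2)) := Nat.mul_le_mul_right _ h5
      _ = k ^ (4 * s + 14) * q ^ (2 * s ^ 2) := by ring
      _ ≤ k ^ (18 * s) * q ^ (2 * s ^ 2) :=
          Nat.mul_le_mul_right _ (Nat.pow_le_pow_right hk0 (by omega))
  calc _ ≤ (k ^ (18 * s) * q ^ (2 * s ^ 2)) ^ 8 := Nat.pow_le_pow_left h6 8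
    _ = k ^ (144 * s) * q ^ (16 * s ^ 2) := by
        rw [mul_pow, ← pow_mul, ← pow_mul]
        congr 2 <;> ring
    _ ≤ N := hN

theorem Nmw_log (y : ℝ) (hy : 1 ≤ y) : Real.log (y ^ 8) ≤ 8 * y := by
  rw [Real.log_pow]
  have := Real.log_le_sub_one_of_pos (by linarith : 0 < y)
  push_cast
  nlinarith

theorem Nmw_exp (x : ℝ) (h0 : 0 ≤ x) (h1 : x ≤ 1) (d : ℕ) : Real.exp (d * x) ≤ (1 + x) ^ (2 * d) := by
  have h2 : Real.exp (x / 2) ≤ 1 + x := by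
    have h3 := Real.exp_bound_div_one_sub_of_interval (x := x / 2) (by linarith) (by linarith)
    refine h3.trans ?_
    rw [div_le_iff₀ (by linarith)]
    nlinarith
  calc Real.exp (d * x) = Real.exp (x / 2) ^ (2 * d) := by
        rw [← Real.exp_nat_mul]
        congr 1
        push_cast
        ring
    _ ≤ (1 + x) ^ (2 * d) := pow_le_pow_left₀ (Real.exp_pos _).le h2 _

theorem Nmw_main (k s N q R : ℕ) (hs : 1 ≤ s) (hk : 2 * s ≤ k) (hq : 2 ≤ q)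
    (hN : k ^ (144 * s) * q ^ (16 * s ^ 2) ≤ N) (hR1 : 1 ≤ R) (hR : R ^ 4 ≤ N ^ (3 * s)) (L K : ℝ)
    (hL : L = ((k + 1 : ℕ) : ℝ) ^ (2 * s) * (q : ℝ) ^ ((2 * s).choose 2)) (hK : K = (k : ℝ) ^ 2 + 1) :
    64 * (L * K) ^ 2 * ((k.choose 2 : ℝ) * (2 / (N : ℝ)) ^ 2) / 1 ^ 2 ≤ 1 / N ∧
      ∃ (d : ℕ) (η : ℝ), 0 < η ∧
      (K + 1) * R * (L + 1 / (8 * (K + 1))) ^ (2 * d + 1) <
        (L + 2 * (1 / (8 * (K + 1)))) ^ (2 * d) * (1 / 8 * (1 / (N : ℝ))) ∧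
      L * (η + (1 + 1 / η) * (2 * R * ((k.choose (s + 1) : ℝ) * (((d * k : ℕ) : ℝ) / N) ^ (s + 1)))) <
        1 / (8 * (K + 1)) := by
  have hk2 : (2 : ℝ) ≤ k := by exact_mod_cast (by omega : 2 ≤ k)
  have hs1 : (1 : ℝ) ≤ s := by exact_mod_cast hs
  have hR1' : (1 : ℝ) ≤ R := by exact_mod_cast hR1
  have hNn : 1 ≤ N := by
    have hk1 : 1 ≤ k ^ (144 * s) := Nat.one_le_pow _ _ (by omega)
    have hq1 : 1 ≤ q ^ (16 * s ^ 2) := Nat.one_le_pow _ _ (by omega)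
    exact le_trans (Nat.mul_le_mul hk1 hq1) hN
  have hN0 : (0 : ℝ) < N := by exact_mod_cast hNn
  have hN1 : (1 : ℝ) ≤ N := by exact_mod_cast hNn
  obtain ⟨y, hy0, hy8⟩ : ∃ y : ℝ, 0 ≤ y ∧ y ^ 8 = N := by
    refine ⟨(N : ℝ) ^ ((1 : ℝ) / 8), by positivity, ?_⟩
    rw [← Real.rpow_natCast, ← Real.rpow_mul hN0.le]
    norm_num
  have hy1 : 1 ≤ y := by
    by_contra hcon
    push Not at hcon
    have : y ^ 8 < 1 := pow_lt_one₀ hy0 hcon (by norm_num)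
    linarith
  have hyN : y ≤ N := by
    rw [← hy8]
    calc y = y ^ 1 := (pow_one _).symm
      _ ≤ y ^ 8 := pow_le_pow_right₀ hy1 (by norm_num)
  have hL1 : 1 ≤ L := by
    rw [hL]
    have h3 : (1 : ℝ) ≤ ((k + 1 : ℕ) : ℝ) ^ (2 * s) := one_le_pow₀ (by push_cast; linarith)
    have h4 : (1 : ℝ) ≤ (q : ℝ) ^ ((2 * s).choose 2) := one_le_pow₀ (by exact_mod_cast (by omega : 1 ≤ q))
    nlinarith
  obtain ⟨T, hT⟩ : ∃ T : ℝ, T = K + 1 := ⟨_, rfl⟩
  have hT' : T = (k : ℝ) ^ 2 + 2 := by rw [hT, hK]; ring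
  rw [← hT]
  have hT1 : 6 ≤ T := by rw [hT']; nlinarith
  have hK0 : 0 ≤ K := by rw [hK]; positivity
  have hKT : K ≤ T := by linarith
  obtain ⟨Γ, hΓ⟩ : ∃ Γ : ℝ, Γ = 224 * s * T * L * k ^ 2 := ⟨_, rfl⟩
  have hΓy : Γ ≤ y := by
    have h1 := Nmw_gamma k s N q hs hk (by omega) hN
    have h2 : Γ ^ 8 ≤ y ^ 8 := by
      rw [hy8, hΓ, hT', hL]
      have h3 : (((224 * s * (k ^ 2 + 2) * ((k + 1) ^ (2 * s) * q ^ ((2 * s).choose 2)) * k ^ 2) ^ 8 : ℕ) : ℝ) ≤ N := by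
        exact_mod_cast h1
      push_cast at h3 ⊢
      exact h3
    have hΓ0 : 0 ≤ Γ := by rw [hΓ]; positivity
    exact (pow_le_pow_iff_left₀ hΓ0 hy0 (by norm_num)).1 h2
  have hRy : (R : ℝ) ≤ y ^ (6 * s) := by
    have h1 : (R : ℝ) ^ 4 ≤ (y ^ (6 * s)) ^ 4 := by
      have h2 : (R : ℝ) ^ 4 ≤ (N : ℝ) ^ (3 * s) := by exact_mod_cast hR
      rw [← hy8, ← pow_mul] at h2
      rw [← pow_mul]
      refine h2.trans (le_of_eq ?_)
      congr 1
      ring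
    exact (pow_le_pow_iff_left₀ (by positivity) (by positivity) (by norm_num)).1 h1
  have hRN : (R : ℝ) ≤ (N : ℝ) ^ s := by
    refine hRy.trans ?_
    rw [← hy8, ← pow_mul]
    exact pow_le_pow_right₀ hy1 (by omega)
  have hTL : 1 ≤ T * L := one_le_mul_of_one_le_of_one_le (by linarith) hL1
  have hkk : (1 : ℝ) ≤ (k : ℝ) ^ 2 := by nlinarith
  have hΓ1 : 224 * (T * L) ≤ Γ := by
    have h1 : T * L ≤ s * (T * L) := le_mul_of_one_le_left (by linarith) hs1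
    have h2 : s * (T * L) ≤ s * (T * L) * (k : ℝ) ^ 2 := le_mul_of_one_le_right (by positivity) hkk
    have h3 : Γ = 224 * (s * (T * L) * (k : ℝ) ^ 2) := by rw [hΓ]; ring
    linarith
  have hΓ2 : 16 * (L * K * k) ≤ Γ := by
    have h1 : L * K * k ≤ L * T * (k : ℝ) ^ 2 := by
      have h2 : L * K ≤ L * T := mul_le_mul_of_nonneg_left hKT (by linarith)
      have h3 : (k : ℝ) ≤ (k : ℝ) ^ 2 := by nlinarith
      exact mul_le_mul h2 h3 (by linarith) (by positivity)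
    have h3 : 0 ≤ L * T * (k : ℝ) ^ 2 := by positivity
    have h2 : L * T * (k : ℝ) ^ 2 ≤ s * (L * T * (k : ℝ) ^ 2) := le_mul_of_one_le_left h3 hs1
    have h4 : Γ = 224 * (s * (L * T * (k : ℝ) ^ 2)) := by rw [hΓ]; ring
    linarith
  refine ⟨?_, ?_⟩
  · have h1 : (k.choose 2 : ℝ) ≤ (k : ℝ) ^ 2 := by exact_mod_cast Nat.choose_le_pow k 2
    have h2 : (16 * (L * K * k)) ^ 2 ≤ y ^ 2 := pow_le_pow_left₀ (by positivity) (hΓ2.trans hΓy) 2
    have h3 : y ^ 2 ≤ N := by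
      rw [← hy8]
      exact pow_le_pow_right₀ hy1 (by norm_num)
    calc 64 * (L * K) ^ 2 * ((k.choose 2 : ℝ) * (2 / (N : ℝ)) ^ 2) / 1 ^ 2 ≤
          64 * (L * K) ^ 2 * ((k : ℝ) ^ 2 * (2 / (N : ℝ)) ^ 2) / 1 ^ 2 := by gcongr
      _ = (16 * (L * K * k)) ^ 2 / (N : ℝ) ^ 2 := by
          field_simp
          ring
      _ ≤ N / (N : ℝ) ^ 2 := by
          gcongr
          exact h2.trans h3
      _ = 1 / N := by
          field_simp
  · obtain ⟨r, hr⟩ : ∃ r : ℝ, r = 1 / (8 * T) := ⟨_, rfl⟩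
    rw [← hr]
    have hr0 : 0 < r := by rw [hr]; positivity
    have hrT : 8 * T * r = 1 := by rw [hr]; field_simp
    have hr1 : r ≤ 1 := by nlinarith
    have hlog0 : 0 ≤ Real.log N := Real.log_nonneg hN1
    have hlog : Real.log N ≤ 8 * y := by
      rw [← hy8]
      exact Nmw_log y hy1
    have hsTL : 1 ≤ s * (T * L) := one_le_mul_of_one_le_of_one_le hs1 hTL
    obtain ⟨d, hd⟩ : ∃ d : ℕ, d = ⌈27 * (s * (T * L)) * Real.log N⌉₊ := ⟨_, rfl⟩
    have hd1 : 27 * (s * (T * L)) * Real.log N ≤ d := by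
      rw [hd]
      exact Nat.le_ceil _
    have hd2 : (d : ℝ) ≤ 224 * (s * (T * L)) * y := by
      have h1 : (d : ℝ) < 27 * (s * (T * L)) * Real.log N + 1 := by
        rw [hd]
        exact Nat.ceil_lt_add_one (by positivity)
      have h2 : 27 * (s * (T * L)) * Real.log N ≤ 27 * (s * (T * L)) * (8 * y) :=
        mul_le_mul_of_nonneg_left hlog (by positivity)
      have h3 : 1 ≤ s * (T * L) * y := one_le_mul_of_one_le_of_one_le hsTL hy1
      linarith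
    refine ⟨d, r / (4 * L), by positivity, ?_, ?_⟩
    · obtain ⟨a, ha⟩ : ∃ a : ℝ, a = L + r := ⟨_, rfl⟩
      have ha0 : 0 < a := by linarith
      obtain ⟨x, hx⟩ : ∃ x : ℝ, x = r / a := ⟨_, rfl⟩
      have hxa : x * a = r := by rw [hx]; field_simp
      have hx0 : 0 ≤ x := by rw [hx]; positivity
      have hx1 : x ≤ 1 := by
        rw [hx, div_le_one ha0]
        linarith
      have hb : L + 2 * r = a * (1 + x) := by
        rw [mul_add, mul_one, mul_comm a x, hxa, ha]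
        ring
      rw [← ha, hb, mul_pow]
      have hxlow : 1 ≤ 9 * (T * L) * x := by
        rw [hx, ← mul_div_assoc, le_div_iff₀ ha0, ha]
        have h1 : 9 * (T * L) * r = 9 / 8 * L := by
          have : T * r = 1 / 8 := by linarith
          calc 9 * (T * L) * r = 9 * L * (T * r) := by ring
            _ = 9 / 8 * L := by rw [this]; ring
        rw [h1]
        have h2 : r ≤ 1 / 8 := by nlinarith
        linarith
      have h1 : 3 * s * Real.log N ≤ d * x := by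
        have h2 : 27 * (s * (T * L)) * Real.log N * x ≤ d * x := mul_le_mul_of_nonneg_right hd1 hx0
        have h3 : 3 * (s : ℝ) * Real.log N * 1 ≤ 3 * s * Real.log N * (9 * (T * L) * x) :=
          mul_le_mul_of_nonneg_left hxlow (by positivity)
        calc 3 * (s : ℝ) * Real.log N = 3 * s * Real.log N * 1 := (mul_one _).symm
          _ ≤ 3 * s * Real.log N * (9 * (T * L) * x) := h3
          _ = 27 * (s * (T * L)) * Real.log N * x := by ring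
          _ ≤ d * x := h2
      have h2 : (N : ℝ) ^ (3 * s) ≤ (1 + x) ^ (2 * d) := by
        refine le_trans ?_ (Nmw_exp x hx0 hx1 d)
        calc (N : ℝ) ^ (3 * s) = Real.exp (3 * s * Real.log N) := by
              rw [← Real.exp_log (x := (N : ℝ) ^ (3 * s)) (by positivity), Real.log_pow]
              push_cast
              rfl
          _ ≤ Real.exp (d * x) := Real.exp_le_exp.2 h1
      have h3 : 8 * T * a < N := by
        have h4 : 8 * T * a ≤ 16 * (T * L) := by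
          rw [ha]
          nlinarith
        have h5 : 16 * (T * L) < Γ := by linarith
        linarith
      have h4 : 8 * T * R * a * N < (N : ℝ) ^ (3 * s) := by
        calc 8 * T * R * a * N = (8 * T * a) * (R * N) := by ring
          _ < N * (R * N) := mul_lt_mul_of_pos_right h3 (by positivity)
          _ ≤ N * ((N : ℝ) ^ s * N) := by gcongr
          _ = (N : ℝ) ^ (s + 2) := by ring
          _ ≤ (N : ℝ) ^ (3 * s) := pow_le_pow_right₀ hN1 (by omega)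
      have h5 : 8 * T * R * a * N < (1 + x) ^ (2 * d) := h4.trans_le h2
      rw [pow_succ]
      have h6 : 0 < a ^ (2 * d) := by positivity
      calc T * R * (a ^ (2 * d) * a) = a ^ (2 * d) * (8 * T * R * a * N) * (1 / 8 * (1 / (N : ℝ))) := by
            field_simp
        _ < a ^ (2 * d) * (1 + x) ^ (2 * d) * (1 / 8 * (1 / (N : ℝ))) := by
            refine mul_lt_mul_of_pos_right (mul_lt_mul_of_pos_left h5 h6) (by positivity)
    · obtain ⟨δ, hδ⟩ : ∃ δ : ℝ, δ = (k.choose (s + 1) : ℝ) * (((d * k : ℕ) : ℝ) / N) ^ (s + 1) := ⟨_, rfl⟩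
      rw [← hδ]
      have hδ0 : 0 ≤ δ := by rw [hδ]; positivity
      have hδ1 : δ ≤ 1 / y ^ (6 * s + 6) := by
        have h1 : (k.choose (s + 1) : ℝ) ≤ (k : ℝ) ^ (s + 1) := by exact_mod_cast Nat.choose_le_pow k (s + 1)
        have h2 : (d : ℝ) * k ^ 2 ≤ y ^ 2 := by
          calc (d : ℝ) * k ^ 2 ≤ 224 * (s * (T * L)) * y * k ^ 2 := by gcongr
            _ = Γ * y := by rw [hΓ]; ring
            _ ≤ y * y := mul_le_mul_of_nonneg_right hΓy hy0
            _ = y ^ 2 := by ring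
        calc δ ≤ (k : ℝ) ^ (s + 1) * (((d * k : ℕ) : ℝ) / N) ^ (s + 1) := by
              rw [hδ]
              gcongr
          _ = ((d : ℝ) * k ^ 2 / N) ^ (s + 1) := by
              rw [← mul_pow]
              congr 1
              push_cast
              ring
          _ ≤ (y ^ 2 / N) ^ (s + 1) := by gcongr
          _ = 1 / y ^ (6 * s + 6) := by
              have h3 : y ^ 2 / (N : ℝ) = 1 / y ^ 6 := by
                rw [← hy8]
                have : y ≠ 0 := by linarith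
                field_simp
              rw [h3, one_div_pow, ← pow_mul]
              congr 2
      have h1 : 1280 * T ^ 2 * L ^ 2 * R * δ ≤ 1 := by
        have h2 : 1280 * T ^ 2 * L ^ 2 ≤ y ^ 2 := by
          have h3 : (224 * (T * L)) ^ 2 ≤ y ^ 2 := pow_le_pow_left₀ (by positivity) (hΓ1.trans hΓy) 2
          nlinarith [sq_nonneg (T * L)]
        have hy0' : 0 < y := by linarith
        calc 1280 * T ^ 2 * L ^ 2 * R * δ ≤ y ^ 2 * y ^ (6 * s) * (1 / y ^ (6 * s + 6)) := by gcongr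
          _ = 1 / y ^ 4 := by
              field_simp
              ring
          _ ≤ 1 := by
              rw [div_le_one (by positivity)]
              exact one_le_pow₀ hy1
      have h2 : 20 * L ^ 2 * R * δ ≤ r ^ 2 := by
        have h3 : r ^ 2 * (64 * T ^ 2) = 1 := by
          calc r ^ 2 * (64 * T ^ 2) = (8 * T * r) ^ 2 := by ring
            _ = 1 := by rw [hrT]; norm_num
        have h4 : 20 * L ^ 2 * R * δ * (64 * T ^ 2) ≤ r ^ 2 * (64 * T ^ 2) := by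
          rw [h3]
          calc 20 * L ^ 2 * R * δ * (64 * T ^ 2) = 1280 * T ^ 2 * L ^ 2 * R * δ := by ring
            _ ≤ 1 := h1
        exact le_of_mul_le_mul_right h4 (by positivity)
      have h3 : 1 + 1 / (r / (4 * L)) ≤ 5 * L / r := by
        rw [one_div_div, le_div_iff₀ hr0]
        have : 4 * L / r * r = 4 * L := by field_simp
        rw [add_mul, this]
        linarith
      have hL0 : 0 < L := by linarith
      calc L * (r / (4 * L) + (1 + 1 / (r / (4 * L))) * (2 * R * δ)) ≤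
            L * (r / (4 * L) + (5 * L / r) * (2 * R * δ)) := by gcongr
        _ = r / 4 + (20 * L ^ 2 * R * δ) / (2 * r) := by
            field_simp
            ring
        _ ≤ r / 4 + r ^ 2 / (2 * r) := by gcongr
        _ = 3 / 4 * r := by
            field_simp
            ring
        _ < r := by linarith

end Pool.Agent.H9.SE
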