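import Pool.Agent.H9.SE.Vsa
import Pool.Agent.H9.KR.Gnp
import Pool.Agent.H9.SQ.FinS

/-!
Module Trf.  The graph of the pairs of colour `0` is the binomial random graph `G(N, 1/q)` of Mathlib.   Use only the STATEMENTS of Vsa, `KR.gnp_real`, `KR.real_eq_pr` (see `Pool/Agent/H9/KR/Gnp.lean`, `Pool/Agent/H9/SQ/FinS.lean`, `Pool/Agent/H9/KR/Defs.lean` for the names).
For one graph `G`: the colourings `ψ` with `colourGraph ψ = G` are those with `(ψ e : ℕ) = 0` for `e ∈ KR.ed G`, `≠ 0` for the other pairs without loop, and any colour at the loops: a product set (`Fintype.piFinset`, `Fintype.card_piFinset`) with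
`1 ^ |ed G| * (q - 1) ^ |pairs \ ed G| * q ^ N` elements; divided by `q ^ |Sym2|`, `|Sym2 (Fin N)| = |pairs| + N`, this is `(1/q) ^ |ed G| * (1 - 1/q) ^ |pairs \ ed G|` (`KR.gnp_real`).  (With a product over `e : Sym2 (Fin N)` of `(number of colours at e) / q` one does not need these cardinalities.)
Then sum over the `G` with `S G` (`KR.real_eq_pr`; `Finset.card_eq_sum_card_fiberwise` or `Finset.sum_fiberwise`).
-/

set_option autoImplicit false
set_option linter.unusedSectionVars false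

open Finset

namespace Pool.Agent.H9.SE

open Pool.Agent.H9.SD

open Classical in
/-- the allowed colours at the pair `e` -/
private noncomputable def Trf_Z {N : ℕ} (q : ℕ) (G : SimpleGraph (Fin N)) (e : Sym2 (Fin N)) : Finset (Fin q) :=
  if e ∈ KR.ed G then univ.filter (fun a : Fin q => (a : ℕ) = 0)
  else if e ∈ KR.pairs (Fin N) then univ.filter (fun a : Fin q => ¬ (a : ℕ) = 0) else univ

private theorem Trf_card0 {q : ℕ} (hq : 2 ≤ q) : (univ.filter (fun a : Fin q => (a : ℕ) = 0)).card = 1 := by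
  rw [Finset.card_eq_one]
  refine ⟨⟨0, by omega⟩, ?_⟩
  ext a
  simp only [mem_filter, mem_univ, true_and, mem_singleton]
  exact ⟨fun h => Fin.ext h, fun h => by rw [h]⟩

private theorem Trf_card1 {q : ℕ} (hq : 2 ≤ q) :
    ((univ.filter (fun a : Fin q => ¬ (a : ℕ) = 0)).card : ℝ) = q - 1 := by
  have h1 := Finset.card_filter_add_card_filter_not (s := (univ : Finset (Fin q))) (fun a : Fin q => (a : ℕ) = 0)
  rw [Trf_card0 hq, card_univ, Fintype.card_fin] at h1
  have h2 : (1 : ℝ) + ((univ.filter (fun a : Fin q => ¬ (a : ℕ) = 0)).card : ℝ) = q := by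
    exact_mod_cast h1
  linarith

open Classical in
private theorem Trf_iff {N q : ℕ} (G : SimpleGraph (Fin N)) (ψ : Sym2 (Fin N) → Fin q) :
    colourGraph ψ = G ↔ ∀ e, ψ e ∈ Trf_Z q G e := by
  constructor
  · rintro rfl e
    induction e using Sym2.ind with
    | _ u v =>
      unfold Trf_Z
      split_ifs with h1 h2
      · exact mem_filter.2 ⟨mem_univ _, (KR.mem_ed.1 h1).2⟩
      · exact mem_filter.2 ⟨mem_univ _, fun h => h1 (KR.mem_ed.2 ⟨KR.mem_pairs.1 h2, h⟩)⟩
      · exact mem_univ _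
  · intro h
    ext u v
    have h1 := h s(u, v)
    unfold Trf_Z at h1
    constructor
    · rintro ⟨h2, h3⟩
      by_contra h4
      rw [if_neg (fun h5 => h4 (KR.mem_ed.1 h5)), if_pos (KR.mem_pairs.2 h2)] at h1
      exact (mem_filter.1 h1).2 h3
    · intro h2
      rw [if_pos (KR.mem_ed.2 h2)] at h1
      exact ⟨h2.ne, (mem_filter.1 h1).2⟩

open Classical in
theorem Trf_one {N q : ℕ} (hq : 2 ≤ q) (p : unitInterval) (hp : (p : ℝ) = 1 / q) (G : SimpleGraph (Fin N)) :
    (SimpleGraph.binomialRandom (Fin N) p).real {G} * (Fintype.card (Sym2 (Fin N) → Fin q) : ℝ) =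
      (univ.filter (fun ψ : Sym2 (Fin N) → Fin q => colourGraph ψ = G)).card := by
  have h1 : univ.filter (fun ψ : Sym2 (Fin N) → Fin q => colourGraph ψ = G) = Fintype.piFinset (Trf_Z q G) := by
    ext ψ
    rw [mem_filter, Fintype.mem_piFinset, Trf_iff]
    simp
  have h2 : (Fintype.card (Sym2 (Fin N) → Fin q) : ℝ) = ∏ _e : Sym2 (Fin N), (q : ℝ) := by
    rw [Fintype.card_fun, Fintype.card_fin, Finset.prod_const, card_univ]
    push_cast
    rfl
  have h3 : (SimpleGraph.binomialRandom (Fin N) p).real {G} =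
      ∏ e : Sym2 (Fin N), ((if e ∈ KR.ed G then (p : ℝ) else 1) *
        (if e ∈ KR.pairs (Fin N) \ KR.ed G then 1 - (p : ℝ) else 1)) := by
    rw [Finset.prod_mul_distrib, Finset.prod_ite_mem, Finset.prod_ite_mem, univ_inter, univ_inter,
      Finset.prod_const, Finset.prod_const]
    exact KR.gnp_real p G
  have hq0 : (q : ℝ) ≠ 0 := by
    have : 0 < q := by omega
    positivity
  rw [h1, h2, h3, Fintype.card_piFinset, ← Finset.prod_mul_distrib]
  push_cast
  refine Finset.prod_congr rfl fun e _ => ?_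
  unfold Trf_Z
  rw [hp]
  by_cases ha : e ∈ KR.ed G
  · rw [if_pos ha, if_pos ha, if_neg (fun h => (mem_sdiff.1 h).2 ha), Trf_card0 hq, mul_one,
      one_div, inv_mul_cancel₀ hq0, Nat.cast_one]
  · by_cases hb : e ∈ KR.pairs (Fin N)
    · rw [if_neg ha, if_neg ha, if_pos (mem_sdiff.2 ⟨hb, ha⟩), if_pos hb, Trf_card1 hq]
      field_simp
    · rw [if_neg ha, if_neg ha, if_neg (fun h => hb (mem_sdiff.1 h).1), if_neg hb, card_univ,
        Fintype.card_fin, one_mul, one_mul]

open Classical in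
theorem Trf_main {N q : ℕ} (hq : 2 ≤ q) (p : unitInterval) (hp : (p : ℝ) = 1 / q) (S : SimpleGraph (Fin N) → Prop) :
    (SimpleGraph.binomialRandom (Fin N) p).real {G | S G} * (Fintype.card (Sym2 (Fin N) → Fin q) : ℝ) =
      (univ.filter (fun ψ : Sym2 (Fin N) → Fin q => S (colourGraph ψ))).card := by
  rw [KR.real_eq_pr]
  have h1 := Finset.card_eq_sum_card_fiberwise (f := fun ψ : Sym2 (Fin N) → Fin q => colourGraph ψ)
    (s := univ.filter (fun ψ : Sym2 (Fin N) → Fin q => S (colourGraph ψ))) (t := univ.filter S)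
    (fun ψ hψ => by
      rw [mem_coe, mem_filter] at hψ ⊢
      exact ⟨mem_univ _, hψ.2⟩)
  rw [h1]
  unfold KR.pr
  push_cast
  rw [← Finset.sum_filter, Finset.sum_mul]
  refine Finset.sum_congr ?_ fun G hG => ?_
  · ext G
    simp
  · rw [Trf_one hq p hp G]
    congr 2
    ext ψ
    rw [mem_filter, mem_filter, mem_filter]
    constructor
    · rintro ⟨h2, h3⟩
      exact ⟨⟨h2, by rw [h3]; exact (mem_filter.1 hG).2⟩, h3⟩
    · rintro ⟨⟨h2, _⟩, h3⟩
      exact ⟨h2, h3⟩

end Pool.Agent.H9.SE
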