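import Pool.Agent.H9.SE.Vsa
import Pool.Agent.H9.SD.Efa
import Pool.Agent.H9.SD.Loc

/-!
Module Vsb.  Sums of functions that depend on the pairs inside few vertices.   Use only the STATEMENTS of Vsa, Efa.
The first four lemmas are the proofs of `Pool/Agent/H9/SD/Loc.lean` with `ed C` in the place of `C` (`Vsa_mono` for `C ⊆ C ∪ C'`; `Dep (ed C)` of a product).
`Vsb_es`: `es B h ψ = ∑ C, es B (g C) ψ` (`Efa_lin` with `S = univ`, `c = 1`, after `h = fun ψ => ∑ C, 1 * g C ψ`); for `C.card ≤ m`, `B` is not a subset of `ed C` (else `vs B ⊆ C` by `Vsa_vs_ed`), so `Efa_van` gives `0`;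
for `m < C.card`, `g C = 0`, which depends on no pair, and `B ≠ ∅` (as `vs B` is not empty), so `Efa_van` with `∅`.
`Vsb_main`: each entry of `X` is `LocV k` (constants `LocV_const` need `0 ≤ k`: any `m`), a finite sum of the functions `c F * D F ψ` that depend on `ed (im F)` with `(im F).card = k`; `LocV_pow` and `Vsb_es`.
-/

set_option autoImplicit false
set_option linter.unusedSectionVars false

open Finset

namespace Pool.Agent.H9.SE

open Pool.Agent.H9.SD

variable {N : ℕ} {A : Type} [Fintype A] [DecidableEq A] [Nonempty A]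

theorem LocV_dep (m : ℕ) (C : Finset (Fin N)) (hC : C.card ≤ m) (h : (Sym2 (Fin N) → A) → ℝ) (hh : Dep (ed C) h) :
    LocV m h := by
  refine ⟨fun C' ψ => if C' = C then h ψ else 0, ?_, ?_, ?_⟩
  · intro C' ψ ψ' hψ
    dsimp only
    by_cases hc : C' = C
    · subst hc
      rw [if_pos rfl, if_pos rfl]
      exact hh ψ ψ' hψ
    · rw [if_neg hc, if_neg hc]
  · intro C' hC' ψ
    dsimp only
    rw [if_neg]
    rintro rfl
    omega
  · intro ψ
    rw [Finset.sum_ite_eq' univ C (fun _ => h ψ), if_pos (Finset.mem_univ _)]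

theorem LocV_const (m : ℕ) (c : ℝ) : LocV m (fun _ : Sym2 (Fin N) → A => c) :=
  LocV_dep m ∅ (by simp) _ (fun _ _ _ => rfl)

theorem LocV_sum {κ : Type} (S : Finset κ) (m : ℕ) (h : κ → (Sym2 (Fin N) → A) → ℝ) (hh : ∀ j ∈ S, LocV m (h j)) :
    LocV m (fun ψ => ∑ j ∈ S, h j ψ) := by
  choose! g hg1 hg2 hg3 using hh
  refine ⟨fun C ψ => ∑ j ∈ S, g j C ψ, ?_, ?_, ?_⟩
  · intro C ψ ψ' hψ
    exact Finset.sum_congr rfl fun j hj => hg1 j hj C ψ ψ' hψ
  · intro C hC ψ
    exact Finset.sum_eq_zero fun j hj => hg2 j hj C hC ψ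
  · intro ψ
    dsimp only
    rw [Finset.sum_comm]
    exact Finset.sum_congr rfl fun j hj => hg3 j hj ψ

theorem LocV_mul (m m' : ℕ) (h h' : (Sym2 (Fin N) → A) → ℝ) (hh : LocV m h) (hh' : LocV m' h') :
    LocV (m + m') (fun ψ => h ψ * h' ψ) := by
  obtain ⟨g, h1, h2, h3⟩ := hh
  obtain ⟨g', h1', h2', h3'⟩ := hh'
  refine ⟨fun E ψ => ∑ C, ∑ C', if C ∪ C' = E then g C ψ * g' C' ψ else 0, ?_, ?_, ?_⟩
  · intro E ψ ψ' hψ
    refine Finset.sum_congr rfl fun C _ => Finset.sum_congr rfl fun C' _ => ?_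
    by_cases hE : C ∪ C' = E
    · rw [if_pos hE, if_pos hE]
      rw [h1 C ψ ψ' fun v hv => hψ v (Vsa_mono (by rw [← hE]; exact Finset.subset_union_left) hv),
        h1' C' ψ ψ' fun v hv => hψ v (Vsa_mono (by rw [← hE]; exact Finset.subset_union_right) hv)]
    · rw [if_neg hE, if_neg hE]
  · intro E hE ψ
    refine Finset.sum_eq_zero fun C _ => Finset.sum_eq_zero fun C' _ => ?_
    by_cases hE' : C ∪ C' = E
    · rw [if_pos hE']
      have h4 : E.card ≤ C.card + C'.card := by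
        rw [← hE']
        exact Finset.card_union_le _ _
      by_cases h5 : m < C.card
      · rw [h2 C h5, zero_mul]
      · rw [h2' C' (by omega), mul_zero]
    · rw [if_neg hE']
  · intro ψ
    dsimp only
    rw [h3, h3', Finset.sum_mul_sum]
    symm
    rw [Finset.sum_comm]
    refine Finset.sum_congr rfl fun C _ => ?_
    rw [Finset.sum_comm]
    refine Finset.sum_congr rfl fun C' _ => ?_
    rw [Finset.sum_ite_eq univ (C ∪ C') (fun _ => g C ψ * g' C' ψ), if_pos (Finset.mem_univ _)]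

theorem LocV_pow {R : ℕ} (m d : ℕ) (X : (Sym2 (Fin N) → A) → Matrix (Fin R) (Fin R) ℝ)
    (hX : ∀ a b, LocV m (fun ψ => X ψ a b)) (a b : Fin R) : LocV (d * m) (fun ψ => (X ψ ^ d) a b) := by
  induction d generalizing b with
  | zero =>
    have h1 : (fun ψ => (X ψ ^ 0) a b) = fun _ : Sym2 (Fin N) → A => (1 : Matrix (Fin R) (Fin R) ℝ) a b := by
      funext ψ
      rw [pow_zero]
    rw [h1]
    exact LocV_const _ _
  | succ d ih =>
    have h1 : (fun ψ => (X ψ ^ (d + 1)) a b) = fun ψ => ∑ c, (X ψ ^ d) a c * X ψ c b := by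
      funext ψ
      rw [pow_succ, Matrix.mul_apply]
    rw [h1, Nat.succ_mul]
    exact LocV_sum univ _ _ fun c _ => LocV_mul _ _ _ _ (ih c) (hX c b)

theorem Vsb_es (m : ℕ) (B : Finset (Sym2 (Fin N))) (h : (Sym2 (Fin N) → A) → ℝ) (hh : LocV m h)
    (hB : m < (vs B).card) (ψ : Sym2 (Fin N) → A) : es B h ψ = 0 := by
  obtain ⟨g, h1, h2, h3⟩ := hh
  have e1 : h = fun ψ => ∑ C ∈ (univ : Finset (Finset (Fin N))), (1 : ℝ) * g C ψ := by
    funext ψ
    rw [h3 ψ]
    exact Finset.sum_congr rfl fun C _ => (one_mul _).symm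
  rw [e1, Efa_lin]
  refine Finset.sum_eq_zero fun C _ => ?_
  rw [one_mul]
  by_cases hC : C.card ≤ m
  · refine Efa_van B (ed C) (g C) (h1 C) ?_ ψ
    intro hsub
    have h4 := Finset.card_le_card (Vsa_vs_ed hsub)
    omega
  · refine Efa_van B ∅ (g C) ?_ ?_ ψ
    · intro ψ ψ' _
      rw [h2 C (by omega), h2 C (by omega)]
    · intro hsub
      have h5 : B = ∅ := Finset.subset_empty.1 hsub
      have h6 : vs B = ∅ := by rw [h5]; rfl
      rw [h6, Finset.card_empty] at hB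
      omega

theorem Vsb_main {k R : ℕ} (d : ℕ) (D : (Fin k ↪ Fin N) → (Sym2 (Fin N) → A) → ℝ)
    (hD : ∀ F, Dep (ed (im F)) (D F)) (X : (Sym2 (Fin N) → A) → Matrix (Fin R) (Fin R) ℝ)
    (hX : ∀ a b, ∃ (c0 : ℝ) (c : (Fin k ↪ Fin N) → ℝ), ∀ ψ, X ψ a b = c0 + ∑ F, c F * D F ψ)
    (a b : Fin R) (B : Finset (Sym2 (Fin N))) (hB : ¬ (vs B).card ≤ d * k) (ψ : Sym2 (Fin N) → A) :
    es B (fun ψ => (X ψ ^ d) a b) ψ = 0 := by
  refine Vsb_es (d * k) B _ (LocV_pow k d X ?_ a b) (by omega) ψ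
  intro a b
  obtain ⟨c0, c, hc⟩ := hX a b
  have e1 : (fun ψ => X ψ a b) = fun ψ => ∑ o : Option (Fin k ↪ Fin N),
      (Option.elim o (fun _ => c0) (fun F ψ => c F * D F ψ) : (Sym2 (Fin N) → A) → ℝ) ψ := by
    funext ψ
    rw [hc ψ, Fintype.sum_option]
    rfl
  rw [e1]
  refine LocV_sum univ k _ fun o _ => ?_
  cases o with
  | none => exact LocV_const k c0
  | some F =>
    refine LocV_dep k (im F) ?_ _ ?_
    · unfold im
      rw [Finset.card_map, Finset.card_univ, Fintype.card_fin]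
    · intro ψ ψ' hψ
      exact congrArg (fun r => c F * r) (hD F ψ ψ' hψ)

end Pool.Agent.H9.SE
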