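import Pool.Agent.H9.SE.Gab
import Pool.Agent.H9.SE.Vsb
import Pool.Agent.H9.SE.Dnb
import Pool.Agent.H9.SE.Dnk
import Pool.Agent.H9.SE.Dnd
import Pool.Agent.H9.SE.Hta
import Pool.Agent.H9.SE.Nmw
import Pool.Agent.H9.SE.Trf
import Pool.Agent.H9.SD.Blk

/-!
Module Gnr.  The uniform average-case lower bound for SDP relaxations on the random graph `G(N, 1/q)`.
-/

set_option autoImplicit false
set_option linter.unusedSectionVars false

open Finset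

namespace Pool.Agent.H9.SE

open Pool.Agent.H9.SD

open Classical in
theorem Gnr_count (s k N q R : ℕ) (hs : 1 ≤ s) (hk : 2 * s ≤ k) (hq : 2 ≤ q)
    (hN : k ^ (144 * s) * q ^ (16 * s ^ 2) ≤ N) (w : SimpleGraph (Fin k) → ℝ) (hw : LocalObjective (2 * s) w) (ρ : ℝ)
    (hρ : 0 < ρ) (hwρ : ∀ H, |w ⊤ - w H| ≤ (k : ℝ) ^ 2 * ρ) (hR : (R + 1) ^ 4 ≤ N ^ (3 * s))
    (B : (Fin k ↪ Fin N) → Matrix (Fin R) (Fin R) ℝ) (hB : ∀ F, (B F).PosSemidef)
    (hcert : 1 / (N : ℝ) * (Fintype.card (Sym2 (Fin N) → Fin q) : ℝ) ≤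
        ((univ : Finset (Sym2 (Fin N) → Fin q)).filter (fun ψ => Certifies2 w B (colourGraph ψ) ρ)).card) : False := by
  have hk1 : 1 ≤ k ^ (144 * s) := Nat.one_le_pow _ _ (by omega)
  have hq1 : 1 ≤ q ^ (16 * s ^ 2) := Nat.one_le_pow _ _ (by omega)
  have hkN : k ≤ N := by
    calc k = k ^ 1 := (pow_one _).symm
      _ ≤ k ^ (144 * s) := Nat.pow_le_pow_right (by omega) (by omega)
      _ = k ^ (144 * s) * 1 := (mul_one _).symm
      _ ≤ k ^ (144 * s) * q ^ (16 * s ^ 2) := Nat.mul_le_mul_left _ hq1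
      _ ≤ N := hN
  have hN1 : 1 ≤ N := le_trans (by omega) hkN
  have : Nonempty (Fin q) := ⟨⟨0, by omega⟩⟩
  have : Nonempty (Fin k ↪ Fin N) := ⟨Fin.castLEEmb hkN⟩
  have hN0 : (0 : ℝ) < N := by exact_mod_cast (by omega : 0 < N)
  have hqR : (1 : ℝ) ≤ q := by exact_mod_cast (by omega : 1 ≤ q)
  obtain ⟨L, hLdef⟩ : ∃ L : ℝ, L = ((k + 1 : ℕ) : ℝ) ^ (2 * s) * (q : ℝ) ^ ((2 * s).choose 2) := ⟨_, rfl⟩
  obtain ⟨K, hK⟩ : ∃ K : ℝ, K = (k : ℝ) ^ 2 + 1 := ⟨_, rfl⟩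
  obtain ⟨hCε, d, η, hη, h1, h2⟩ := Nmw_main k s N q (R + 1) hs hk hq hN (by omega) hR L K hLdef hK
  have hK0 : 0 ≤ K := by rw [hK]; positivity
  have hL1 : 1 ≤ L := by
    rw [hLdef]
    have h3 : (1 : ℝ) ≤ ((k + 1 : ℕ) : ℝ) ^ (2 * s) := one_le_pow₀ (by push_cast; linarith [(Nat.cast_nonneg k : (0 : ℝ) ≤ k)])
    have h4 : (1 : ℝ) ≤ (q : ℝ) ^ ((2 * s).choose 2) := one_le_pow₀ hqR
    nlinarith
  have hcard : ∀ F : Fin k ↪ Fin N, (im F).card = k := fun F => by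
    unfold im
    rw [card_map, card_univ, Fintype.card_fin]
  set Z : Finset (Sym2 (Fin N) → Fin q) := univ.filter (fun ψ => Certifies2 w B (colourGraph ψ) ρ) with hZdef
  have hch : ∀ ψ : Sym2 (Fin N) → Fin q, ∃ (P : Matrix (Fin R) (Fin R) ℝ) (z : ℝ), P.PosSemidef ∧ 0 ≤ z ∧
      (ψ ∈ Z → ∀ F : Fin k ↪ Fin N, (w ⊤ - ρ - w ((colourGraph ψ).comap F)) / ρ = (P * B F).trace + z) := by
    intro ψ
    by_cases hψ : ψ ∈ Z
    · obtain ⟨P, z, h1, h2, h3⟩ := (mem_filter.1 hψ).2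
      refine ⟨(1 / ρ) • P, z / ρ, h1.smul (by positivity), by positivity, fun _ F => ?_⟩
      rw [h3 F, Matrix.smul_mul, Matrix.trace_smul, smul_eq_mul]
      ring
    · exact ⟨0, 0, Matrix.PosSemidef.zero, le_rfl, fun h => absurd h hψ⟩
  choose P z hP hz hPB using hch
  obtain ⟨P', B', hP', hB', hPB'⟩ := Blk_main P B z hP hB hz
  have hPQ : ∀ ψ ∈ Z, ∀ F : Fin k ↪ Fin N, ((if ψ ∈ Z then P' ψ else 0) * B' F).trace =
      (w ⊤ - ρ - w ((colourGraph ψ).comap F)) / ρ := by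
    intro ψ hψ F
    rw [if_pos hψ, hPB', ← hPB ψ hψ F]
  have hε0 : (0 : ℝ) ≤ (k.choose 2 : ℝ) * (2 / (N : ℝ)) ^ 2 := by positivity
  refine Gab_main (d := d) (by omega) (fun (F : Fin k ↪ Fin N) ψ => Dn (2 * s) (im F) ψ)
    (fun F ψ => (w ⊤ - ρ - w ((colourGraph ψ).comap F)) / ρ) (fun F B => (vs B ∩ im F).card ≤ s)
    (fun B => (vs B).card ≤ d * k) (fun F => ed (im F)) L K 1 η (1 / N)
    ((k.choose (s + 1) : ℝ) * (((d * k : ℕ) : ℝ) / N) ^ (s + 1)) ((k.choose 2 : ℝ) * (2 / (N : ℝ)) ^ 2) hL1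
    (fun F ψ => ?_) (fun F h => Dnb_main (by omega) s (im F) h) hK0 (fun F ψ => ?_) one_pos
    (fun F => ?_) (fun F => ?_) hε0
    (fun B hB => Hta_two hkN (by omega) B hB) (fun ψ => if ψ ∈ Z then P' ψ else 0) B' (fun ψ => ?_) hB' Z
    hCε (by positivity) hcert hPQ (fun ψ hψ => if_neg hψ) (by positivity)
    (fun B hB => ?_)
    (fun X hX a b B hB ψ => Vsb_main d _ (fun F => Dna_depn (2 * s) (im F)) X hX a b B hB ψ) hη h1 h2
  · have h3 := Dnk_main hq (2 * s) (im F) ψ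
    rw [hcard F] at h3
    rw [hLdef]
    exact h3
  · have h3 := hwρ ((colourGraph ψ).comap F)
    show |(w ⊤ - ρ - w ((colourGraph ψ).comap F)) / ρ| ≤ K
    rw [abs_div, abs_of_pos hρ, div_le_iff₀ hρ, hK]
    have h4 : w ⊤ - ρ - w ((colourGraph ψ).comap F) = (w ⊤ - w ((colourGraph ψ).comap F)) + (-ρ) := by ring
    rw [h4]
    refine (abs_add_le _ _).trans ?_
    rw [abs_neg, abs_of_pos hρ]
    linarith
  · have h3 := Dnd_main (by omega : 1 ≤ q) s w hw ρ F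
    show ∑ ψ : Sym2 (Fin N) → Fin q, Dn (2 * s) (im F) ψ * ((w ⊤ - ρ - w ((colourGraph ψ).comap F)) / ρ) = _
    simp only [← mul_div_assoc]
    rw [← Finset.sum_div, h3]
    field_simp
  · intro ψ ψ' hψ
    have h3 := Dnd_depf (2 * s) w ρ F ψ ψ' hψ
    show Dn (2 * s) (im F) ψ * ((w ⊤ - ρ - w ((colourGraph ψ).comap F)) / ρ) =
      Dn (2 * s) (im F) ψ' * ((w ⊤ - ρ - w ((colourGraph ψ').comap F)) / ρ)
    rw [← mul_div_assoc, ← mul_div_assoc]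
    exact congrArg (· / ρ) h3
  · show (if ψ ∈ Z then P' ψ else 0).PosSemidef
    split_ifs
    · exact hP' ψ
    · exact Matrix.PosSemidef.zero
  · convert Hta_one hkN (by omega) s (d * k) B hB

/-- The lower bound for the binomial random graph `G(N, 1/q)` of Mathlib. -/
theorem Gnr_main (s k N q R : ℕ) (p : unitInterval) (hs : 1 ≤ s) (hk : 2 * s ≤ k) (hq : 2 ≤ q) (hp : (p : ℝ) = 1 / q)
    (hN : k ^ (144 * s) * q ^ (16 * s ^ 2) ≤ N) (w : SimpleGraph (Fin k) → ℝ) (hw : LocalObjective (2 * s) w) (ρ : ℝ)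
    (hρ : 0 < ρ) (hwρ : ∀ H, |w ⊤ - w H| ≤ (k : ℝ) ^ 2 * ρ) (hR : (R + 1) ^ 4 ≤ N ^ (3 * s))
    (B : (Fin k ↪ Fin N) → Matrix (Fin R) (Fin R) ℝ) (hB : ∀ F, (B F).PosSemidef) :
    (SimpleGraph.binomialRandom (Fin N) p).real {G | Certifies2 w B G ρ} < 1 / N := by
  classical
  by_contra hcon
  push Not at hcon
  refine Gnr_count s k N q R hs hk hq hN w hw ρ hρ hwρ hR B hB ?_
  have h1 := Trf_main hq p hp (fun G => Certifies2 w B G ρ)
  have h2 : 1 / (N : ℝ) * (Fintype.card (Sym2 (Fin N) → Fin q) : ℝ) ≤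
      (SimpleGraph.binomialRandom (Fin N) p).real {G | Certifies2 w B G ρ} *
        (Fintype.card (Sym2 (Fin N) → Fin q) : ℝ) := mul_le_mul_of_nonneg_right hcon (by positivity)
  rw [h1] at h2
  convert h2 using 2

end Pool.Agent.H9.SE
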