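import Pool.Agent.H9.SE.Gnr
import Pool.Agent.H9.SD.Upd

/-!
# SDP relaxations of `k`-clique and random graphs

The definitions `LocalObjective`, `Certifies2` and `edgeCount` are in `Pool/Agent/H9/SD/Stm2.lean`.
-/

set_option autoImplicit false

open Finset

namespace Pool.Agent.H9.SE

open Pool.Agent.H9.SD

theorem Res_edge {k : ℕ} (H : SimpleGraph (Fin k)) :
    |edgeCount (⊤ : SimpleGraph (Fin k)) - edgeCount H| ≤ (k : ℝ) ^ 2 := by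
  classical
  have h1 : ∀ G : SimpleGraph (Fin k), 0 ≤ edgeCount G ∧ edgeCount G ≤ (k : ℝ) ^ 2 := by
    intro G
    unfold edgeCount
    refine ⟨Finset.sum_nonneg fun i _ => Finset.sum_nonneg fun j _ => by split_ifs <;> norm_num, ?_⟩
    calc ∑ i, ∑ j, (if G.Adj i j then (1 : ℝ) else 0) ≤ ∑ i : Fin k, ∑ j : Fin k, (1 : ℝ) :=
          Finset.sum_le_sum fun i _ => Finset.sum_le_sum fun j _ => by split_ifs <;> norm_num
      _ = (k : ℝ) ^ 2 := by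
          simp [sq]
  rw [abs_le]
  constructor
  · linarith [(h1 ⊤).1, (h1 H).2]
  · linarith [(h1 ⊤).2, (h1 H).1]

theorem Res_main (s k N q : ℕ) (p : unitInterval) (hs : 1 ≤ s) (hk : 2 * s ≤ k) (hq : 2 ≤ q)
    (hp : (p : ℝ) = 1 / q) (hN : k ^ (144 * s) * q ^ (16 * s ^ 2) ≤ N) :
    (∀ w : SimpleGraph (Fin k) → ℝ, LocalObjective (2 * s) w → ∀ ρ : ℝ, 0 < ρ →
      (∀ H, |w ⊤ - w H| ≤ (k : ℝ) ^ 2 * ρ) →
      ∀ (R : ℕ) (B : (Fin k ↪ Fin N) → Matrix (Fin R) (Fin R) ℝ), (∀ F, (B F).PosSemidef) →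
      (R + 1) ^ 4 ≤ N ^ (3 * s) →
      (SimpleGraph.binomialRandom (Fin N) p).real {G | Certifies2 w B G ρ} < 1 / N) ∧
    (∀ K : ℕ, (N : ℝ) ^ (K + 1) * (p : ℝ) ^ K.choose 2 ≤ 1 →
      (SimpleGraph.binomialRandom (Fin N) p).real {G | ¬ G.CliqueFree K} ≤ 1 / N) ∧
    LocalObjective 2 (edgeCount (k := k)) ∧
    (∀ H : SimpleGraph (Fin k), |edgeCount (⊤ : SimpleGraph (Fin k)) - edgeCount H| ≤ (k : ℝ) ^ 2) ∧
    ∀ K : ℕ, 2 ≤ K → K ≤ k →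
      ∃ B : (Fin k ↪ Fin N) → Matrix (Fin (N.choose K)) (Fin (N.choose K)) ℝ, (∀ F, (B F).PosSemidef) ∧
        ∀ G : SimpleGraph (Fin N), G.CliqueFree K → ∀ ρ : ℝ, ρ ≤ 2 * ((k : ℝ) * (k - 1)) / ((K : ℝ) * (K - 1)) →
          Certifies2 edgeCount B G ρ := by
  have hN1 : 1 ≤ N := by
    have hk1 : 1 ≤ k ^ (144 * s) := Nat.one_le_pow _ _ (by omega)
    have hq1 : 1 ≤ q ^ (16 * s ^ 2) := Nat.one_le_pow _ _ (by omega)
    exact le_trans (Nat.mul_le_mul hk1 hq1) hN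
  refine ⟨fun w hw ρ hρ hwρ R B hB hR => Gnr_main s k N q R p hs hk hq hp hN w hw ρ hρ hwρ hR B hB,
    fun K hK => Pool.Agent.H9.SQ.FinS_clique K N p hN1 hK, Upd_local 2 le_rfl, Res_edge, fun K h2 hKk => ?_⟩
  exact Upd_main N k K h2 hKk

end Pool.Agent.H9.SE
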