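import Pool.Agent.H9.SE.Dfs

/-!
Module Vsa.  Simple facts about `vs` and `ed` (use `Sym2.mem_toFinset`, `Sym2.ind`, `Sym2.toFinset_mk_eq`, `Sym2.mk_isDiag_iff`).
`Vsa_card`: the pairs in `ed J` are `J.offDiag.image Sym2.mk` (`Sym2.card_image_offDiag`) or use `SimpleGraph` edges of `completeGraph`.
-/

set_option autoImplicit false
set_option linter.unusedSectionVars false

open Finset

namespace Pool.Agent.H9.SE

open Pool.Agent.H9.SD

variable {N : ℕ}

theorem Vsa_mem_vs (B : Finset (Sym2 (Fin N))) (v : Fin N) : v ∈ vs B ↔ ∃ e ∈ B, v ∈ e := by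
  unfold vs
  simp only [mem_biUnion, Sym2.mem_toFinset]

theorem Vsa_mem_ed (U : Finset (Fin N)) (e : Sym2 (Fin N)) : e ∈ ed U ↔ ¬ e.IsDiag ∧ ∀ v ∈ e, v ∈ U := by
  unfold ed
  simp only [mem_filter, mem_univ, true_and, Finset.subset_iff, Sym2.mem_toFinset]

theorem Vsa_pair (U : Finset (Fin N)) (u v : Fin N) (huv : u ≠ v) (hu : u ∈ U) (hv : v ∈ U) : s(u, v) ∈ ed U := by
  rw [Vsa_mem_ed]
  refine ⟨by simpa using huv, fun x hx => ?_⟩
  rw [Sym2.mem_iff] at hx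
  rcases hx with rfl | rfl
  · exact hu
  · exact hv

theorem Vsa_mono {U U' : Finset (Fin N)} (h : U ⊆ U') : ed U ⊆ ed U' := by
  intro e he
  rw [Vsa_mem_ed] at he ⊢
  exact ⟨he.1, fun v hv => h (he.2 v hv)⟩

theorem Vsa_vs_mono {B B' : Finset (Sym2 (Fin N))} (h : B ⊆ B') : vs B ⊆ vs B' :=
  Finset.biUnion_subset_biUnion_of_subset_left _ h

theorem Vsa_union (B B' : Finset (Sym2 (Fin N))) : vs (B ∪ B') = vs B ∪ vs B' :=
  Finset.union_biUnion

theorem Vsa_vs_ed {B : Finset (Sym2 (Fin N))} {C : Finset (Fin N)} (h : B ⊆ ed C) : vs B ⊆ C := by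
  intro v hv
  rw [Vsa_mem_vs] at hv
  obtain ⟨e, he, hve⟩ := hv
  exact ((Vsa_mem_ed C e).1 (h he)).2 v hve

theorem Vsa_ed_vs {B : Finset (Sym2 (Fin N))} {C : Finset (Fin N)} (h : B ⊆ ed C) : B ⊆ ed (vs B) := by
  intro e he
  rw [Vsa_mem_ed]
  exact ⟨((Vsa_mem_ed C e).1 (h he)).1, fun v hv => (Vsa_mem_vs B v).2 ⟨e, he, hv⟩⟩

theorem Vsa_card (J : Finset (Fin N)) : (ed J).card = J.card.choose 2 := by
  rw [← Sym2.card_image_offDiag]
  congr 1
  ext e
  induction e using Sym2.ind with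
  | _ u v =>
    rw [Vsa_mem_ed, mem_image]
    constructor
    · rintro ⟨h1, h2⟩
      refine ⟨(u, v), ?_, rfl⟩
      rw [mem_offDiag]
      exact ⟨h2 u (Sym2.mem_mk_left u v), h2 v (Sym2.mem_mk_right u v), by simpa using h1⟩
    · rintro ⟨⟨a, b⟩, hab, h⟩
      rw [mem_offDiag] at hab
      rw [← h]
      refine ⟨by simpa using hab.2.2, fun x hx => ?_⟩
      have hx' : x = a ∨ x = b := Sym2.mem_iff.1 hx
      rcases hx' with rfl | rfl
      · exact hab.1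
      · exact hab.2.1

end Pool.Agent.H9.SE
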